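import Pool.Agent.H24.Lib.R_seed8.R424.EX.Link

/-!
Counting lemmas for sets of small doubling and their fibres
(helper file for `MP_dd2a7c_co.FibresDecide`).
-/

set_option autoImplicit false

namespace Pool.Agent.H28.FB

open Finset
open Pool.Agent.Y806.DF Pool.Agent.R92.Star Pool.Agent.R424.EX
open scoped Pointwise

universe u v

section body

variable {d : ℕ} {B : Set (Fin d → ℝ)}

theorem re_nsmul (m : ℕ) (v : Fin d → ℤ) : re (m • v) = (m : ℝ) • re v := by
  funext i
  simp [re]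

theorem smul_lat {t : ℝ} (m : ℕ) {v : Fin d → ℤ} (hv : v ∈ lat (t • B)) :
    m • v ∈ lat (((m : ℝ) * t) • B) := by
  show re (m • v) ∈ ((m : ℝ) * t) • B
  rw [re_nsmul, mul_smul]
  exact Set.smul_mem_smul_set hv

theorem one_lat {v : Fin d → ℤ} (hv : v ∈ lat B) : v ∈ lat ((1 : ℝ) • B) := by
  rwa [one_smul]

theorem num_one : num B 1 = (lat B).ncard := by rw [num, one_smul]

/-- the points of a subgroup in the dilates of a symmetric convex set -/
theorem ker_double (hB : Sym B) (Λ : AddSubgroup (Fin d → ℤ)) {t : ℝ} (ht : 0 < t)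
    (P Q : Finset (Fin d → ℤ)) (hP : ∀ w ∈ P, w ∈ Λ ∧ w ∈ lat ((8 * t) • B))
    (hQ : ∀ w, w ∈ Λ → w ∈ lat (t • B) → w ∈ Q) {M : ℝ} (hd : (4 : ℝ) ^ d ≤ M) :
    (P.card : ℝ) ≤ M ^ 5 * Q.card := by
  classical
  set R := (hB.finite (t / 2)).toFinset with hR
  have hmemR : ∀ w, w ∈ R ↔ w ∈ lat ((t / 2) • B) := fun w => Set.Finite.mem_toFinset _
  have hRc : R.card = num B (t / 2) := by
    rw [num, Set.ncard_eq_toFinset_card _ (hB.finite (t / 2))]
  have hRne : R.Nonempty := by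
    rw [← Finset.card_pos, hRc]
    exact num_pos hB _
  have h1 : ((P + R).card : ℝ) ≤ M ^ 5 * R.card := by
    have h2 : (P + R).card ≤ num B (2 ^ 5 * (t / 2)) := by
      rw [num, Set.ncard_eq_toFinset_card _ (hB.finite _)]
      refine Finset.card_le_card ?_
      intro w hw
      obtain ⟨p, hp, r, hr, rfl⟩ := Finset.mem_add.1 hw
      rw [Set.Finite.mem_toFinset]
      have h3 := hB.add (by positivity) (by positivity) (hP p hp).2 ((hmemR r).1 hr)
      exact lat_mono (hB.mono (by positivity) (by linarith)) h3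
    have h3 := num_pow hB (t := t / 2) (by positivity) 5
    have h4 : (((4 ^ 5) ^ d : ℕ) : ℝ) ≤ M ^ 5 := by
      rw [← pow_mul, mul_comm, pow_mul, Nat.cast_pow]
      exact pow_le_pow_left₀ (by positivity) (by exact_mod_cast hd) 5
    calc ((P + R).card : ℝ) ≤ (((4 ^ 5) ^ d * num B (t / 2) : ℕ) : ℝ) := by
          exact_mod_cast h2.trans h3
      _ = (((4 ^ 5) ^ d : ℕ) : ℝ) * R.card := by rw [hRc]; push_cast; ring
      _ ≤ M ^ 5 * R.card := mul_le_mul_of_nonneg_right h4 (Nat.cast_nonneg _)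
  obtain ⟨F, hFP, hF, hcov⟩ := cover hRne h1
  have h2 : P ⊆ F + Q := by
    intro p hp
    obtain ⟨x, hx, y, hy, z, hz, e⟩ := hcov p hp
    refine Finset.mem_add.2 ⟨x, hx, p - x, ?_, by abel⟩
    have h3 : p - x = y - z := by rw [e]; abel
    refine hQ _ (Λ.sub_mem (hP p hp).1 (hP x (hFP hx)).1) ?_
    rw [h3]
    have h4 := hB.sub (by positivity) (by positivity) ((hmemR y).1 hy) ((hmemR z).1 hz)
    have h5 : t / 2 + t / 2 = t := by ring
    rwa [h5] at h4
  calc (P.card : ℝ) ≤ ((F.card * Q.card : ℕ) : ℝ) := by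
        exact_mod_cast (Finset.card_le_card h2).trans Finset.card_add_le
    _ = F.card * Q.card := by push_cast; ring
    _ ≤ M ^ 5 * Q.card := mul_le_mul_of_nonneg_right hF (Nat.cast_nonneg _)

theorem num_le {M : ℝ} (hB : Sym B) (hd : (4 : ℝ) ^ d ≤ M) {t : ℝ} (ht : 0 ≤ t) (k : ℕ)
    (hk : t ≤ 2 ^ k) : (num B t : ℝ) ≤ M ^ k * (lat B).ncard := by
  have h1 := num_mono hB ht hk
  have h2 := num_pow hB (t := 1) (by norm_num) k
  rw [mul_one] at h2
  have h4 : (((4 ^ k) ^ d : ℕ) : ℝ) ≤ M ^ k := by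
    rw [← pow_mul, mul_comm, pow_mul, Nat.cast_pow]
    exact pow_le_pow_left₀ (by positivity) (by exact_mod_cast hd) k
  calc (num B t : ℝ) ≤ (((4 ^ k) ^ d * num B 1 : ℕ) : ℝ) := by exact_mod_cast h1.trans h2
    _ = (((4 ^ k) ^ d : ℕ) : ℝ) * (lat B).ncard := by rw [num_one]; push_cast; ring
    _ ≤ M ^ k * (lat B).ncard := mul_le_mul_of_nonneg_right h4 (Nat.cast_nonneg _)

/-- the hull of a set of lattice points of a convex set -/
theorem hull_le (hB : Sym B) {t : ℝ} {X : Finset (Fin d → ℤ)} (hX : ∀ w ∈ X, w ∈ lat (t • B)) :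
    (hull X).ncard ≤ num B t := by
  refine Set.ncard_le_ncard ?_ (hB.finite t)
  intro w hw
  have h1 : convexHull ℝ (re '' (X : Set (Fin d → ℤ))) ⊆ t • B := by
    refine convexHull_min ?_ (hB.smul t).conv
    rintro _ ⟨x, hx, rfl⟩
    exact hX x hx
  exact h1 hw

end body

section sums

variable {Γ : Type*} {Δ : Type*} [AddCommGroup Γ] [DecidableEq Γ] [AddCommGroup Δ]
  [DecidableEq Δ]

/-- the sum of a large part of a fibre and of a set in a coset of the kernel -/
theorem fibU (π : Γ →+ Δ) {A : Finset Γ} (hA : A.Nonempty) {M : ℝ}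
    (hM : ((A + A).card : ℝ) ≤ M * A.card) {F U Y : Finset Γ} {i j : ℕ} {c x : Δ}
    (hFA : F ⊆ A) (hF : ∀ f ∈ F, π f = x)
    (hsize : (A.card : ℝ) ≤ M * (F.card * (A.image π).card))
    (hU : ∀ u ∈ U, π u = c) (hUY : U ⊆ Y + (i • A - j • A)) :
    ((U + F).card : ℝ) ≤ Y.card * M ^ (i + j + 3) * F.card := by
  have hM1 := one_le hA hM
  have hM0 : 0 ≤ M := by linarith
  have h1 := fib π A (U + F) (c + x) (by
    intro q hq
    obtain ⟨u, hu, f, hf, rfl⟩ := Finset.mem_add.1 hq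
    rw [map_add, hU u hu, hF f hf])
  have h2 : A + (U + F) ⊆ Y + ((i + 1 + 1) • A - j • A) := by
    intro z hz
    obtain ⟨a, ha, q, hq, rfl⟩ := Finset.mem_add.1 hz
    obtain ⟨u, hu, f, hf, rfl⟩ := Finset.mem_add.1 hq
    obtain ⟨y, hy, v, hv, rfl⟩ := Finset.mem_add.1 (hUY hu)
    obtain ⟨p, hp, r, hr, rfl⟩ := Finset.mem_sub.1 hv
    exact Finset.mem_add.2 ⟨y, hy, (p + a + f) - r, mem_pr (mem_add_nsmul (mem_add_nsmul hp
      (mem_one ha)) (mem_one (hFA hf))) hr, by abel⟩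
  have h3 := card_cov hA hM Y _ _ h2
  have hpos : (0 : ℝ) < (A.image π).card := by exact_mod_cast (hA.image π).card_pos
  have h4 : ((A.image π).card : ℝ) * (U + F).card ≤
      (A.image π).card * (Y.card * M ^ (i + j + 3) * F.card) := by
    calc ((A.image π).card : ℝ) * (U + F).card ≤ (A + (U + F)).card := by exact_mod_cast h1
      _ ≤ Y.card * (M ^ (i + 1 + 1 + j) * A.card) := h3
      _ ≤ Y.card * (M ^ (i + 1 + 1 + j) * (M * (F.card * (A.image π).card))) := by gcongr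
      _ = (A.image π).card * (Y.card * M ^ (i + j + 3) * F.card) := by
        have e : i + j + 3 = (i + 1 + 1 + j) + 1 := by ring
        rw [e, pow_succ M (i + 1 + 1 + j)]
        ring
  exact le_of_mul_le_mul_left h4 hpos

/-- the images of sumsets -/
theorem img_card (μ : Γ →+ Δ) {A : Finset Γ} (hA : A.Nonempty) {M : ℝ}
    (hM : ((A + A).card : ℝ) ≤ M * A.card) {P Y : Finset Γ} {i j : ℕ}
    (hP : P ⊆ Y + (i • A - j • A)) :
    ((P.image μ).card : ℝ) ≤ Y.card * M ^ (i + j + 1) * (A.image μ).card := by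
  have hM1 := one_le hA hM
  have hM0 : 0 ≤ M := by linarith
  obtain ⟨b, hb, hmax⟩ := (A.image μ).exists_max_image
    (fun b => (A.filter fun a => μ a = b).card) (hA.image μ)
  set Q := A.filter (fun a => μ a = b) with hQ
  have hQpos : (0 : ℝ) < Q.card := by
    obtain ⟨a, ha, e⟩ := Finset.mem_image.1 hb
    have h : 0 < Q.card := Finset.card_pos.2 ⟨a, Finset.mem_filter.2 ⟨ha, e⟩⟩
    exact_mod_cast h
  have h1 : (A.card : ℝ) ≤ Q.card * (A.image μ).card := by
    exact_mod_cast Finset.card_le_mul_card_image A Q.card fun z hz => hmax z hz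
  have h2 := fib μ P Q b (fun q hq => (Finset.mem_filter.1 hq).2)
  have h3 : P + Q ⊆ Y + ((i + 1) • A - j • A) := by
    intro z hz
    obtain ⟨p, hp, c, hc, rfl⟩ := Finset.mem_add.1 hz
    obtain ⟨y, hy, v, hv, rfl⟩ := Finset.mem_add.1 (hP hp)
    obtain ⟨r, hr, s, hs, rfl⟩ := Finset.mem_sub.1 hv
    exact Finset.mem_add.2 ⟨y, hy, (r + c) - s, mem_pr (mem_add_nsmul hr
      (mem_one (Finset.mem_filter.1 hc).1)) hs, by abel⟩
  have h4 := card_cov hA hM Y _ _ h3
  have h5 : ((P.image μ).card : ℝ) * Q.card ≤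
      (Y.card * M ^ (i + j + 1) * (A.image μ).card) * Q.card := by
    calc ((P.image μ).card : ℝ) * Q.card ≤ (P + Q).card := by exact_mod_cast h2
      _ ≤ Y.card * (M ^ (i + 1 + j) * A.card) := h4
      _ ≤ Y.card * (M ^ (i + 1 + j) * (Q.card * (A.image μ).card)) := by gcongr
      _ = (Y.card * M ^ (i + j + 1) * (A.image μ).card) * Q.card := by
        have e : i + 1 + j = i + j + 1 := by ring
        rw [e]
        ring
  exact le_of_mul_le_mul_right h5 hQpos

end sums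

end Pool.Agent.H28.FB
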