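import Pool.Agent.H28.FB.A

/-!
From a fibre to the whole set: the structure of the dilate `m A` modulo a finite subgroup
(helper file for `MP_dd2a7c_co.FibresDecide`).
-/

set_option autoImplicit false

namespace Pool.Agent.H28.FB

open Finset
open Pool.Agent.Y806.DF Pool.Agent.R92.Star Pool.Agent.R424.EX
open scoped Pointwise

universe u v

/-- **The dilate of a set, from a set which is commensurable up to a dilate.** -/
theorem fwd {Γ Ω : Type*} [AddCommGroup Γ] [DecidableEq Γ] [AddCommGroup Ω] [DecidableEq Ω]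
    (m : ℕ) (hm : 0 < m) {A : Finset Γ} (hA : A.Nonempty) {M : ℝ}
    (hM : ((A + A).card : ℝ) ≤ M * A.card) {A' : Finset Γ} (hA'A : A' ⊆ A)
    (hA'le : (A.card : ℝ) ≤ M * A'.card) {F : Finset Γ}
    {T₁ : Finset Γ} (hT₁ : (T₁.card : ℝ) ≤ M)
    (hcov₁ : ∀ a ∈ A', ∃ x ∈ T₁, ∃ y ∈ F, ∃ z ∈ F, m • a = x + (y - z))
    {T₂ : Finset Γ} (hT₂ : (T₂.card : ℝ) ≤ M)
    (hcov₂ : ∀ f ∈ F, ∃ x ∈ T₂, ∃ y ∈ A, ∃ z ∈ A, f = x + (y - z))
    {d : ℕ} {B : Set (Fin d → ℝ)} (hB : Sym B) (hd : (4 : ℝ) ^ d ≤ M)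
    (ψ : (Fin d → ℤ) →+ Γ) (H : AddSubgroup Γ) [Finite H]
    (hvol : ((lat B).ncard : ℝ) * Nat.card H ≤ M * F.card)
    {T : Finset Γ} (hT : (T.card : ℝ) ≤ M) (hcov : Cov B ψ H T F)
    (q : Γ →+ Ω) (hq : ∀ x, q x = 0 ↔ x ∈ H) :
    ∃ (X : Finset (Fin d → ℤ)) (T' : Finset Γ), X.Nonempty ∧
      ((X + X).card : ℝ) ≤ M ^ 23 * X.card ∧
      ((hull X).ncard : ℝ) ≤ M ^ (4 * m + 7) * X.card ∧
      (T'.card : ℝ) ≤ M ^ 5 ∧
      (∀ w ∈ X, ∃ x : Γ, q (ψ w) = m • q x) ∧
      (∀ a ∈ A, ∃ t ∈ T', ∃ w ∈ X, m • q a = m • q t + q (ψ w)) ∧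
      ((X.image (fun w => q (ψ w))).card : ℝ) ≤ M ^ 7 * (A.image (fun a => m • q a)).card ∧
      ((A + fs H).card : ℝ) ≤ M ^ 8 * A.card := by
  classical
  have hM1 := one_le hA hM
  have hM0 : 0 ≤ M := by linarith
  have hA0 : (0 : ℝ) < A.card := by exact_mod_cast hA.card_pos
  have hHpos : (0 : ℝ) < Nat.card H := by exact_mod_cast Nat.card_pos
  have hA'ne : A'.Nonempty := by
    rw [← Finset.card_pos]
    by_contra hcon
    have h0 : A'.card = 0 := by omega
    rw [h0, Nat.cast_zero, mul_zero] at hA'le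
    linarith
  have hFne : F.Nonempty := by
    obtain ⟨a, ha⟩ := hA'ne
    obtain ⟨-, -, y, hy, -⟩ := hcov₁ a ha
    exact ⟨y, hy⟩
  have hF0 : (0 : ℝ) < F.card := by exact_mod_cast hFne.card_pos
  -- the popular translate for the dilate
  obtain ⟨i, hi, hi2⟩ := pigeon (T₁ ×ˢ (T ×ˢ T)) A' A' hA'ne (fun i a =>
      ∃ v ∈ lat ((2 : ℝ) • B), ∃ h ∈ H, m • a = (i.1 + i.2.1 - i.2.2) + ψ v + h) subset_rfl (by
    intro a ha
    obtain ⟨x, hx, y, hy, z, hz, e⟩ := hcov₁ a ha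
    obtain ⟨t, ht, v, hv, h, hh, ey⟩ := hcov y hy
    obtain ⟨t', ht', v', hv', h', hh', ez⟩ := hcov z hz
    refine ⟨(x, t, t'), Finset.mem_product.2 ⟨hx, Finset.mem_product.2 ⟨ht, ht'⟩⟩, v - v', ?_,
      h - h', H.sub_mem hh hh', ?_⟩
    · have h2 := hB.sub (by norm_num) (by norm_num) (one_lat hv) (one_lat hv')
      have h3 : (1 : ℝ) + 1 = 2 := by norm_num
      rwa [h3] at h2
    · show m • a = x + t - t' + ψ (v - v') + (h - h')
      rw [e, ey, ez, map_sub]
      abel)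
  obtain ⟨x, t, t'⟩ := i
  simp only at hi2
  set A₂ := A'.filter (fun a => ∃ v ∈ lat ((2 : ℝ) • B), ∃ h ∈ H, m • a = (x + t - t') + ψ v + h)
    with hA₂
  have hA₂A : A₂ ⊆ A := (Finset.filter_subset _ _).trans hA'A
  have hA₂le : (A.card : ℝ) ≤ M ^ 4 * A₂.card := by
    have h1 : (A'.card : ℝ) ≤ T₁.card * (T.card * T.card) * A₂.card := by
      calc (A'.card : ℝ) ≤ (((T₁ ×ˢ (T ×ˢ T)).card * A₂.card : ℕ) : ℝ) := by exact_mod_cast hi2
        _ = T₁.card * (T.card * T.card) * A₂.card := by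
          rw [Finset.card_product, Finset.card_product]
          push_cast
          ring
    calc (A.card : ℝ) ≤ M * A'.card := hA'le
      _ ≤ M * (T₁.card * (T.card * T.card) * A₂.card) := mul_le_mul_of_nonneg_left h1 hM0
      _ ≤ M * (M * (M * M) * A₂.card) := by gcongr
      _ = M ^ 4 * A₂.card := by ring
  have hA₂ne : A₂.Nonempty := by
    rw [← Finset.card_pos]
    by_contra hcon
    have h0 : A₂.card = 0 := by omega
    rw [h0, Nat.cast_zero, mul_zero] at hA₂le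
    linarith
  -- the popular translate for `F`
  obtain ⟨⟨t₀, x₂⟩, -, ht₀⟩ := pigeon (T ×ˢ T₂) F F hFne (fun i f =>
      (∃ v ∈ lat B, ∃ h ∈ H, f = i.1 + ψ v + h) ∧ ∃ y ∈ A, ∃ z ∈ A, f = i.2 + (y - z))
    subset_rfl (by
      intro f hf
      obtain ⟨t, ht, h⟩ := hcov f hf
      obtain ⟨x, hx, h'⟩ := hcov₂ f hf
      exact ⟨(t, x), Finset.mem_product.2 ⟨ht, hx⟩, h, h'⟩)
  simp only at ht₀
  set F₀ := F.filter (fun f => (∃ v ∈ lat B, ∃ h ∈ H, f = t₀ + ψ v + h) ∧
    ∃ y ∈ A, ∃ z ∈ A, f = x₂ + (y - z)) with hF₀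
  have hF₀le : (F.card : ℝ) ≤ M ^ 2 * F₀.card := by
    calc (F.card : ℝ) ≤ (((T ×ˢ T₂).card * F₀.card : ℕ) : ℝ) := by exact_mod_cast ht₀
      _ = (T.card * T₂.card) * F₀.card := by rw [Finset.card_product]; push_cast; ring
      _ ≤ (M * M) * F₀.card := by gcongr
      _ = M ^ 2 * F₀.card := by ring
  have hF₀ne : F₀.Nonempty := by
    rw [← Finset.card_pos]
    by_contra hcon
    have h0 : F₀.card = 0 := by omega
    rw [h0, Nat.cast_zero, mul_zero] at hF₀le
    linarith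
  have hF₀F : F₀ ⊆ F := Finset.filter_subset _ _
  have hF₀d : ∀ f ∈ F₀, ∀ f' ∈ F₀, ∃ y ∈ 2 • A, ∃ z ∈ 2 • A, f - f' = y - z := by
    intro f hf f' hf'
    obtain ⟨y, hy, z, hz, e⟩ := (Finset.mem_filter.1 hf).2.2
    obtain ⟨y', hy', z', hz', e'⟩ := (Finset.mem_filter.1 hf').2.2
    refine ⟨y + z', mem_add_nsmul (i := 1) (j := 1) (mem_one hy) (mem_one hz'), z + y',
      mem_add_nsmul (i := 1) (j := 1) (mem_one hz) (mem_one hy'), ?_⟩
    rw [e, e']
    abel
  -- the set `D`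
  obtain ⟨f₀, hf₀⟩ := id hF₀ne
  obtain ⟨a₂, ha₂⟩ := id hA₂ne
  set D := (A₂ - A₂) + (F₀ - F₀) with hD
  have hD1 : ∀ a ∈ A₂, ∀ b ∈ A₂, a - b ∈ D := fun a ha b hb => Finset.mem_add.2
    ⟨a - b, Finset.sub_mem_sub ha hb, f₀ - f₀, Finset.sub_mem_sub hf₀ hf₀, by abel⟩
  have hD2 : ∀ a ∈ F₀, ∀ b ∈ F₀, a - b ∈ D := fun a ha b hb => Finset.mem_add.2
    ⟨a₂ - a₂, Finset.sub_mem_sub ha₂ ha₂, a - b, Finset.sub_mem_sub ha hb, by abel⟩
  have hDA : D ⊆ {0} + (3 • A - 3 • A) := by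
    intro z hz
    obtain ⟨u, hu, w, hw, rfl⟩ := Finset.mem_add.1 hz
    obtain ⟨a, ha, b, hb, rfl⟩ := Finset.mem_sub.1 hu
    obtain ⟨f, hf, f', hf', rfl⟩ := Finset.mem_sub.1 hw
    obtain ⟨y, hy, y', hy', e⟩ := hF₀d f hf f' hf'
    refine Finset.mem_add.2 ⟨0, Finset.mem_singleton_self _, (a + y) - (b + y'), mem_pr
      (mem_add_nsmul (i := 1) (j := 2) (mem_one (hA₂A ha)) hy)
      (mem_add_nsmul (i := 1) (j := 2) (mem_one (hA₂A hb)) hy'), ?_⟩
    rw [e]
    abel
  obtain ⟨c, hc⟩ : ∃ c : ℝ, c = 4 + 2 * m := ⟨_, rfl⟩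
  have hm1 : (1 : ℝ) ≤ m := by exact_mod_cast hm
  have hc0 : 0 < c := by rw [hc]; positivity
  have hDm : ∀ x ∈ D, ∃ w ∈ lat (c • B), ∃ h ∈ H, m • x = ψ w + h := by
    intro z hz
    obtain ⟨u, hu, w, hw, rfl⟩ := Finset.mem_add.1 hz
    obtain ⟨a, ha, b, hb, rfl⟩ := Finset.mem_sub.1 hu
    obtain ⟨f, hf, f', hf', rfl⟩ := Finset.mem_sub.1 hw
    obtain ⟨va, hva, ja, hja, ea⟩ := (Finset.mem_filter.1 ha).2
    obtain ⟨vb, hvb, jb, hjb, eb⟩ := (Finset.mem_filter.1 hb).2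
    obtain ⟨vf, hvf, jf, hjf, ef⟩ := (Finset.mem_filter.1 hf).2.1
    obtain ⟨vg, hvg, jg, hjg, eg⟩ := (Finset.mem_filter.1 hf').2.1
    have h1 := hB.sub (by norm_num) (by norm_num) hva hvb
    have h2 := smul_lat m (hB.sub (by norm_num) (by norm_num) (one_lat hvf) (one_lat hvg))
    have h3 := hB.add (by norm_num) (by positivity) h1 h2
    refine ⟨(va - vb) + m • (vf - vg), ?_, (ja - jb) + m • (jf - jg), H.add_mem
      (H.sub_mem hja hjb) (H.nsmul_mem (H.sub_mem hjf hjg) m), ?_⟩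
    · have e : (2 : ℝ) + 2 + m * (1 + 1) = c := by rw [hc]; ring
      rwa [e] at h3
    · have e1 : m • ((a - b) + (f - f')) = (m • a - m • b) + m • (f - f') := by
        rw [smul_add, smul_sub]
      rw [e1, ea, eb, ef, eg, map_add, map_sub, map_nsmul, map_sub]
      have e2 : t₀ + ψ vf + jf - (t₀ + ψ vg + jg) = (ψ vf - ψ vg) + (jf - jg) := by abel
      rw [e2, smul_add]
      abel
  -- the homomorphisms
  set μ : Γ →+ Ω := (nsmulAddMonoidHom m : Ω →+ Ω).comp q with hμ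
  have hμe : ∀ x, μ x = m • q x := fun _ => rfl
  have hμe' : ∀ x, μ x = q (m • x) := fun x => by rw [hμe, map_nsmul]
  set φ : (Fin d → ℤ) →+ Ω := q.comp ψ with hφ
  have hφe : ∀ w, φ w = q (ψ w) := fun _ => rfl
  have hqH : ∀ h ∈ H, q h = 0 := fun h hh => (hq h).2 hh
  set S := D.image μ with hS
  have hrep : ∀ s ∈ S, ∃ w ∈ lat (c • B), φ w = s := by
    intro s hs
    obtain ⟨x, hx, rfl⟩ := Finset.mem_image.1 hs
    obtain ⟨w, hw, h, hh, e⟩ := hDm x hx
    refine ⟨w, hw, ?_⟩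
    rw [hμe', e, map_add, hqH h hh, add_zero]
    rfl
  -- the set `X`
  set X := (hB.finite (2 * c)).toFinset.filter (fun w => φ w ∈ S) with hX
  have hXmem : ∀ w, w ∈ X ↔ w ∈ lat ((2 * c) • B) ∧ φ w ∈ S := by
    intro w
    rw [hX, Finset.mem_filter, Set.Finite.mem_toFinset]
  have hcc : ∀ w, w ∈ lat (c • B) → w ∈ lat ((2 * c) • B) := fun w hw =>
    lat_mono (hB.mono hc0.le (by linarith)) hw
  set KS := (hB.finite c).toFinset.filter (fun w => φ w = 0) with hKS
  set KL := (hB.finite (8 * c)).toFinset.filter (fun w => φ w = 0) with hKL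
  have hKK : (KL.card : ℝ) ≤ M ^ 5 * KS.card := by
    refine ker_double hB φ.ker hc0 KL KS ?_ ?_ hd
    · intro w hw
      rw [hKL, Finset.mem_filter, Set.Finite.mem_toFinset] at hw
      exact ⟨(AddMonoidHom.mem_ker).2 hw.2, hw.1⟩
    · intro w hw hw2
      rw [hKS, Finset.mem_filter, Set.Finite.mem_toFinset]
      exact ⟨hw2, (AddMonoidHom.mem_ker).1 hw⟩
  have hXlow : S.card * KS.card ≤ X.card := by
    set P := (hB.finite c).toFinset.filter (fun w => φ w ∈ S) with hP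
    have h1 := fib φ P KS 0 (fun w hw => (Finset.mem_filter.1 hw).2)
    have h2 : P.image φ = S := by
      ext s
      rw [Finset.mem_image]
      constructor
      · rintro ⟨w, hw, rfl⟩
        exact (Finset.mem_filter.1 hw).2
      · intro hs
        obtain ⟨w, hw, e⟩ := hrep s hs
        exact ⟨w, Finset.mem_filter.2 ⟨(Set.Finite.mem_toFinset _).2 hw, by rw [e]; exact hs⟩, e⟩
    rw [h2] at h1
    refine h1.trans (Finset.card_le_card ?_)
    intro z hz
    obtain ⟨w, hw, k, hk, rfl⟩ := Finset.mem_add.1 hz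
    rw [hP, Finset.mem_filter, Set.Finite.mem_toFinset] at hw
    rw [hKS, Finset.mem_filter, Set.Finite.mem_toFinset] at hk
    rw [hXmem]
    refine ⟨?_, by rw [map_add, hk.2, add_zero]; exact hw.2⟩
    have h3 := hB.add hc0.le hc0.le hw.1 hk.1
    have e : c + c = 2 * c := by ring
    rwa [e] at h3
  have hXup : (X + X).card ≤ (S + S).card * KL.card := by
    have h1 := card_le_fib φ (X + X) KL (by
      intro a ha b hb e
      obtain ⟨a₁, ha₁, a₂, ha₂, rfl⟩ := Finset.mem_add.1 ha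
      obtain ⟨b₁, hb₁, b₂, hb₂, rfl⟩ := Finset.mem_add.1 hb
      rw [hKL, Finset.mem_filter, Set.Finite.mem_toFinset]
      constructor
      · have h2 := hB.sub (by positivity) (by positivity)
          (hB.add (by positivity) (by positivity) ((hXmem _).1 ha₁).1 ((hXmem _).1 ha₂).1)
          (hB.add (by positivity) (by positivity) ((hXmem _).1 hb₁).1 ((hXmem _).1 hb₂).1)
        have e2 : 2 * c + 2 * c + (2 * c + 2 * c) = 8 * c := by ring
        rwa [e2] at h2
      · rw [map_sub, e, sub_self])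
    refine h1.trans (Nat.mul_le_mul_right _ (Finset.card_le_card ?_))
    intro z hz
    obtain ⟨w, hw, rfl⟩ := Finset.mem_image.1 hz
    obtain ⟨a₁, ha₁, a₂, ha₂, rfl⟩ := Finset.mem_add.1 hw
    rw [map_add]
    exact Finset.add_mem_add ((hXmem _).1 ha₁).2 ((hXmem _).1 ha₂).2
  -- covering `A` by `A₂ - A₂`
  obtain ⟨T₃, -, hT₃, hcov₃⟩ : ∃ T₃ : Finset Γ, T₃ ⊆ A ∧ (T₃.card : ℝ) ≤ M ^ 5 ∧
      ∀ p ∈ A, ∃ x ∈ T₃, ∃ y ∈ A₂, ∃ z ∈ A₂, p = x + (y - z) := by
    refine cover hA₂ne ?_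
    calc ((A + A₂).card : ℝ) ≤ (A + A).card := by
          exact_mod_cast Finset.card_le_card (Finset.add_subset_add_left hA₂A)
      _ ≤ M * A.card := hM
      _ ≤ M * (M ^ 4 * A₂.card) := mul_le_mul_of_nonneg_left hA₂le hM0
      _ = M ^ 5 * A₂.card := by ring
  have hAS : ((A.image μ).card : ℝ) ≤ M ^ 5 * S.card := by
    have h1 : A.image μ ⊆ T₃.image μ + S := by
      intro z hz
      obtain ⟨a, ha, rfl⟩ := Finset.mem_image.1 hz
      obtain ⟨x, hx, y, hy, w, hw, e⟩ := hcov₃ a ha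
      rw [e, map_add]
      exact Finset.add_mem_add (Finset.mem_image_of_mem _ hx)
        (Finset.mem_image_of_mem _ (hD1 y hy w hw))
    calc ((A.image μ).card : ℝ) ≤ ((T₃.card * S.card : ℕ) : ℝ) := by
          exact_mod_cast (Finset.card_le_card h1).trans (Finset.card_add_le.trans
            (Nat.mul_le_mul_right _ Finset.card_image_le))
      _ = T₃.card * S.card := by push_cast; ring
      _ ≤ M ^ 5 * S.card := mul_le_mul_of_nonneg_right hT₃ (Nat.cast_nonneg _)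
  have hSS : ((S + S).card : ℝ) ≤ M ^ 18 * S.card := by
    have h1 : D + D ⊆ {0} + (6 • A - 6 • A) := by
      intro z hz
      obtain ⟨u, hu, w, hw, rfl⟩ := Finset.mem_add.1 hz
      obtain ⟨o, ho, u', hu', rfl⟩ := Finset.mem_add.1 (hDA hu)
      obtain ⟨o', ho', w', hw', rfl⟩ := Finset.mem_add.1 (hDA hw)
      obtain ⟨p, hp, r, hr, rfl⟩ := Finset.mem_sub.1 hu'
      obtain ⟨p', hp', r', hr', rfl⟩ := Finset.mem_sub.1 hw'
      rw [Finset.mem_singleton] at ho ho'
      subst ho ho'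
      exact Finset.mem_add.2 ⟨0, Finset.mem_singleton_self _, (p + p') - (r + r'), mem_pr
        (mem_add_nsmul (i := 3) (j := 3) hp hp') (mem_add_nsmul (i := 3) (j := 3) hr hr'),
        by abel⟩
    have h2 := img_card μ hA hM h1
    rw [Finset.image_add μ, Finset.card_singleton, Nat.cast_one, one_mul] at h2
    calc ((S + S).card : ℝ) ≤ M ^ (6 + 6 + 1) * (A.image μ).card := h2
      _ ≤ M ^ (6 + 6 + 1) * (M ^ 5 * S.card) := by gcongr
      _ = M ^ 18 * S.card := by ring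
  -- elements of `X`
  have hXz : (0 : Fin d → ℤ) ∈ X := by
    rw [hXmem]
    constructor
    · show re 0 ∈ (2 * c) • B
      have : re (0 : Fin d → ℤ) = 0 := by funext i; simp [re]
      rw [this]
      exact ⟨0, hB.zero, smul_zero _⟩
    · rw [map_zero]
      refine Finset.mem_image.2 ⟨f₀ - f₀, hD2 _ hf₀ _ hf₀, ?_⟩
      rw [sub_self, map_zero]
  -- the points over `F₀`
  have hz0 : ∀ f : Γ, ∃ v : Fin d → ℤ, f ∈ F₀ → v ∈ lat B ∧ ∃ h ∈ H, f = t₀ + ψ v + h := by
    intro f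
    by_cases hf : f ∈ F₀
    · obtain ⟨v, hv, h⟩ := (Finset.mem_filter.1 hf).2.1
      exact ⟨v, fun _ => ⟨hv, h⟩⟩
    · exact ⟨0, fun h => absurd h hf⟩
  choose z hz using hz0
  have hZ1 : F₀.card ≤ (F₀.image z).card * Nat.card H := by
    rw [← card_fs]
    refine card_le_fib z F₀ (fs H) ?_
    intro a ha b hb e
    obtain ⟨-, h, hh, ea⟩ := hz a ha
    obtain ⟨-, h', hh', eb⟩ := hz b hb
    rw [mem_fs, ea, eb, e]
    have e2 : t₀ + ψ (z b) + h - (t₀ + ψ (z b) + h') = h - h' := by abel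
    rw [e2]
    exact H.sub_mem hh hh'
  have hZ2 : (F₀.image z).card ≤ X.card := by
    refine Finset.card_le_card_of_injOn (fun v => m • (v - z f₀)) ?_ ?_
    · intro v hv
      obtain ⟨f, hf, rfl⟩ := Finset.mem_image.1 (Finset.mem_coe.1 hv)
      obtain ⟨hv1, h, hh, ea⟩ := hz f hf
      obtain ⟨hv2, h', hh', eb⟩ := hz f₀ hf₀
      rw [Finset.mem_coe, hXmem]
      constructor
      · have h2 := smul_lat m (hB.sub (by norm_num) (by norm_num) (one_lat hv1) (one_lat hv2))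
        refine lat_mono (hB.mono (by positivity) ?_) h2
        rw [hc]
        linarith
      · refine Finset.mem_image.2 ⟨f - f₀, hD2 f hf f₀ hf₀, ?_⟩
        rw [hμe, map_nsmul]
        congr 1
        have e3 : f - f₀ = ψ (z f - z f₀) + (h - h') := by
          rw [map_sub]
          nth_rewrite 1 [ea]
          nth_rewrite 1 [eb]
          abel
        rw [e3, map_add, hqH _ (H.sub_mem hh hh'), add_zero]
        rfl
    · intro v _ w _ e
      have e1 : m • (v - z f₀) = m • (w - z f₀) := e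
      funext i
      have e2 := congrFun e1 i
      simp only [Pi.smul_apply, Pi.sub_apply, nsmul_eq_mul] at e2
      have hm' : (m : ℤ) ≠ 0 := by exact_mod_cast hm.ne'
      have e3 := mul_left_cancel₀ hm' e2
      linarith
  refine ⟨X, T₃, ⟨0, hXz⟩, ?_, ?_, ?_, ?_, ?_, ?_, ?_⟩
  · -- doubling
    calc ((X + X).card : ℝ) ≤ (((S + S).card * KL.card : ℕ) : ℝ) := by exact_mod_cast hXup
      _ = (S + S).card * KL.card := by push_cast; ring
      _ ≤ (M ^ 18 * S.card) * (M ^ 5 * KS.card) :=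
        mul_le_mul hSS hKK (Nat.cast_nonneg _) (by positivity)
      _ = M ^ 23 * ((S.card * KS.card : ℕ) : ℝ) := by
        push_cast
        ring
      _ ≤ M ^ 23 * X.card := by
        have h2 : ((S.card * KS.card : ℕ) : ℝ) ≤ X.card := by exact_mod_cast hXlow
        gcongr
  · -- density
    have h1 := hull_le hB (t := 2 * c) (fun w hw => ((hXmem w).1 hw).1)
    have hck : 2 * c ≤ 2 ^ (4 * m + 4) := by
      have h3 : 4 * m + 4 < 2 ^ (4 * m + 4) := Nat.lt_two_pow_self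
      have h4 : 4 * m + 8 ≤ 2 ^ (4 * m + 4) := by
        have h5 : 2 ^ (4 * m + 4) = 2 * 2 ^ (4 * m + 3) := by rw [pow_succ]; ring
        have h6 : 4 * m + 3 < 2 ^ (4 * m + 3) := Nat.lt_two_pow_self
        omega
      have h5 : ((4 * m + 8 : ℕ) : ℝ) ≤ ((2 ^ (4 * m + 4) : ℕ) : ℝ) := by exact_mod_cast h4
      push_cast at h5
      rw [hc]
      linarith
    have h2 := num_le hB hd (t := 2 * c) (by positivity) (4 * m + 4) hck
    have h3 : ((lat B).ncard : ℝ) ≤ M ^ 3 * X.card := by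
      have h4 : ((lat B).ncard : ℝ) * Nat.card H ≤ (M ^ 3 * X.card) * Nat.card H := by
        calc ((lat B).ncard : ℝ) * Nat.card H ≤ M * F.card := hvol
          _ ≤ M * (M ^ 2 * F₀.card) := by gcongr
          _ ≤ M * (M ^ 2 * (((F₀.image z).card * Nat.card H : ℕ) : ℝ)) := by
            have : (F₀.card : ℝ) ≤ (((F₀.image z).card * Nat.card H : ℕ) : ℝ) := by
              exact_mod_cast hZ1
            gcongr
          _ = M ^ 3 * (F₀.image z).card * Nat.card H := by push_cast; ring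
          _ ≤ (M ^ 3 * X.card) * Nat.card H := by
            have : ((F₀.image z).card : ℝ) ≤ X.card := by exact_mod_cast hZ2
            gcongr
      exact le_of_mul_le_mul_right h4 hHpos
    calc ((hull X).ncard : ℝ) ≤ (num B (2 * c) : ℝ) := by exact_mod_cast h1
      _ ≤ M ^ (4 * m + 4) * (lat B).ncard := h2
      _ ≤ M ^ (4 * m + 4) * (M ^ 3 * X.card) := by gcongr
      _ = M ^ (4 * m + 7) * X.card := by
        have e : M ^ (4 * m + 7) = M ^ (4 * m + 4) * M ^ 3 := by rw [← pow_add]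
        rw [e]
        ring
  · exact hT₃
  · intro w hw
    obtain ⟨x, -, e⟩ := Finset.mem_image.1 ((hXmem w).1 hw).2
    exact ⟨x, e.symm⟩
  · intro a ha
    obtain ⟨x, hx, y, hy, w, hw, e⟩ := hcov₃ a ha
    obtain ⟨v, hv, e2⟩ := hrep _ (Finset.mem_image_of_mem μ (hD1 y hy w hw))
    refine ⟨x, hx, v, ?_, ?_⟩
    · rw [hXmem]
      refine ⟨hcc v hv, ?_⟩
      rw [e2]
      exact Finset.mem_image_of_mem μ (hD1 y hy w hw)
    · rw [← hμe a, ← hμe x, ← hφe v, e2, e, map_add]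
  · have h1 : X.image (fun w => q (ψ w)) ⊆ S := by
      intro s hs
      obtain ⟨w, hw, rfl⟩ := Finset.mem_image.1 hs
      exact ((hXmem w).1 hw).2
    have h2 := img_card μ hA hM hDA
    rw [Finset.card_singleton, Nat.cast_one, one_mul] at h2
    calc ((X.image (fun w => q (ψ w))).card : ℝ) ≤ S.card := by
          exact_mod_cast Finset.card_le_card h1
      _ ≤ M ^ (3 + 3 + 1) * (A.image μ).card := h2
      _ = M ^ 7 * (A.image (fun a => m • q a)).card := rfl
  · -- the subgroup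
    have hfin : (lat B).Finite := by
      have := hB.finite 1
      rwa [one_smul] at this
    obtain ⟨v, -, hv⟩ := pigeon hfin.toFinset F₀ F₀ hF₀ne (fun v f => ∃ h ∈ H, f = t₀ + ψ v + h)
      subset_rfl (by
        intro f hf
        obtain ⟨h1, h2⟩ := hz f hf
        exact ⟨z f, (Set.Finite.mem_toFinset _).2 h1, h2⟩)
    set E := F₀.filter (fun f => ∃ h ∈ H, f = t₀ + ψ v + h) with hE
    have hHE : (Nat.card H : ℝ) ≤ M ^ 3 * E.card := by
      have hlat : (0 : ℝ) < (lat B).ncard := by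
        have h1 := num_pos hB 1
        rw [num_one] at h1
        exact_mod_cast h1
      have h1 : ((lat B).ncard : ℝ) * Nat.card H ≤ (lat B).ncard * (M ^ 3 * E.card) := by
        calc ((lat B).ncard : ℝ) * Nat.card H ≤ M * F.card := hvol
          _ ≤ M * (M ^ 2 * F₀.card) := by gcongr
          _ ≤ M * (M ^ 2 * ((hfin.toFinset.card * E.card : ℕ) : ℝ)) := by
            have : (F₀.card : ℝ) ≤ ((hfin.toFinset.card * E.card : ℕ) : ℝ) := by
              exact_mod_cast hv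
            gcongr
          _ = (lat B).ncard * (M ^ 3 * E.card) := by
            rw [Set.ncard_eq_toFinset_card _ hfin]
            push_cast
            ring
      exact le_of_mul_le_mul_left h1 hlat
    have hEne : E.Nonempty := by
      rw [← Finset.card_pos]
      by_contra hcon
      have h0 : E.card = 0 := by omega
      rw [h0, Nat.cast_zero, mul_zero] at hHE
      linarith
    have hHEsum : ((fs H + E).card : ℝ) ≤ M ^ 3 * E.card := by
      have h2 : (fs H + E).card ≤ Nat.card H := by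
        rw [← card_fs]
        refine Finset.card_le_card_of_injOn (fun x => x - (t₀ + ψ v)) ?_ sub_left_injective.injOn
        intro x hx
        obtain ⟨u, hu, e, he, rfl⟩ := Finset.mem_add.1 (Finset.mem_coe.1 hx)
        obtain ⟨h, hh, rfl⟩ := (Finset.mem_filter.1 he).2
        rw [Finset.mem_coe, mem_fs]
        have e2 : u + (t₀ + ψ v + h) - (t₀ + ψ v) = u + h := by abel
        show u + (t₀ + ψ v + h) - (t₀ + ψ v) ∈ H
        rw [e2]
        exact H.add_mem ((mem_fs H u).1 hu) hh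
      exact (by exact_mod_cast h2 : ((fs H + E).card : ℝ) ≤ Nat.card H).trans hHE
    obtain ⟨T₄, -, hT₄, hcov₄⟩ := cover hEne hHEsum
    have h3 : A + fs H ⊆ T₄ + (3 • A - 2 • A) := by
      intro y hy
      obtain ⟨a, ha, h, hh, rfl⟩ := Finset.mem_add.1 hy
      obtain ⟨x, hx, e, he, e', he', eq⟩ := hcov₄ h hh
      obtain ⟨u, hu, w, hw, e2⟩ := hF₀d e (Finset.mem_filter.1 he).1 e' (Finset.mem_filter.1 he').1
      refine Finset.mem_add.2 ⟨x, hx, (a + u) - w, mem_pr (mem_add_nsmul (i := 1) (j := 2)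
        (mem_one ha) hu) hw, ?_⟩
      rw [eq, e2]
      abel
    have h4 := card_cov hA hM T₄ _ _ h3
    calc ((A + fs H).card : ℝ) ≤ T₄.card * (M ^ (3 + 2) * A.card) := h4
      _ ≤ M ^ 3 * (M ^ (3 + 2) * A.card) := by gcongr
      _ = M ^ 8 * A.card := by ring

end Pool.Agent.H28.FB
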