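import Pool.Agent.H24.Lib.seeded_620a6dc7.helper608_VF_.V11

/-!
Change of the constants; images of dense and star-shaped sets. Copied from the starting library (file
`helper608_VF_/V13.lean`).
-/

set_option autoImplicit false

namespace Pool.Agent.H28.FB

open Finset
open Pool.Agent.Y806.DF Pool.Agent.R92.Star Pool.Agent.H608VF
open scoped Pointwise

universe u v

theorem cpow_mono {C : ℝ} {c : ℕ} (hC : C ≤ c) {K : ℝ} (hK : 1 ≤ K) : C * K ^ C ≤ c * K ^ c := by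
  have h2 : K ^ C ≤ K ^ c := by
    rw [← Real.rpow_natCast]
    exact Real.rpow_le_rpow_of_exponent_le hK hC
  have h3 : 0 ≤ K ^ C := Real.rpow_nonneg (by linarith) C
  calc C * K ^ C ≤ c * K ^ C := mul_le_mul_of_nonneg_right hC h3
    _ ≤ c * K ^ c := mul_le_mul_of_nonneg_left h2 (Nat.cast_nonneg _)

/-- change of the constants in the conclusion of Q1 -/
theorem concl_poly (C₁ : ℝ) (n : ℕ) (hn : 1 ≤ n) : ∃ c : ℕ, ∀ c' : ℕ, c ≤ c' →
    ∀ (Γ : Type u) [AddCommGroup Γ] (K : ℝ) (B : Finset Γ), 1 ≤ K →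
      Concl C₁ (n * K ^ n) B → Concl (c' : ℝ) K B := by
  obtain ⟨n₁, hn₁1, hn₁, hCK⟩ := nat_const C₁
  refine ⟨2 * n * n₁ * n ^ n₁, ?_⟩
  rintro c' hc' Γ _ K B hK1 ⟨d, Q, ψ, H, T, hd, hQ, hH, hvol, hT, hcov⟩
  have hK0 : 0 < K := by linarith
  have hn1r : (1 : ℝ) ≤ n := by exact_mod_cast hn
  have hM1 : (1 : ℝ) ≤ n * K ^ n := by
    have : (1 : ℝ) ≤ K ^ n := one_le_pow₀ hK1
    nlinarith
  have hlog0 : 0 ≤ Real.log (2 * K) := Real.log_nonneg (by linarith)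
  have hpos : 1 ≤ n ^ n₁ := Nat.one_le_pow _ _ hn
  have hc1 : 2 * n * n₁ ≤ c' := (Nat.le_mul_of_pos_right _ hpos).trans hc'
  have hc2 : n * n₁ ≤ c' := by
    refine le_trans ?_ hc1
    have : 0 < n * n₁ := Nat.mul_pos hn hn₁1
    nlinarith
  have hc3 : n₁ * n ^ n₁ ≤ c' := by
    refine le_trans ?_ hc'
    have : 1 ≤ 2 * n := by omega
    calc n₁ * n ^ n₁ = 1 * (n₁ * n ^ n₁) := (one_mul _).symm
      _ ≤ (2 * n) * (n₁ * n ^ n₁) := Nat.mul_le_mul_right _ this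
      _ = _ := by ring
  refine ⟨d, Q, ψ, H, T, ?_, hQ, hH, hvol, ?_, hcov⟩
  · have h7 : 2 * ((n : ℝ) * K ^ n) ≤ (2 * K) ^ (2 * n) := by
      have e1 : 2 * (n : ℝ) ≤ 2 ^ (2 * n) := by
        have : 2 * n < 2 ^ (2 * n) := Nat.lt_two_pow_self
        exact_mod_cast this.le
      have e2 : K ^ n ≤ K ^ (2 * n) := pow_le_pow_right₀ hK1 (by omega)
      calc 2 * ((n : ℝ) * K ^ n) = (2 * (n : ℝ)) * K ^ n := by ring
        _ ≤ 2 ^ (2 * n) * K ^ (2 * n) := mul_le_mul e1 e2 (by positivity) (by positivity)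
        _ = (2 * K) ^ (2 * n) := (mul_pow _ _ _).symm
    have h8 : Real.log (2 * ((n : ℝ) * K ^ n)) ≤ (2 * n : ℕ) * Real.log (2 * K) := by
      rw [← Real.log_pow]
      exact Real.log_le_log (by positivity) h7
    have h9 : 0 ≤ Real.log (2 * ((n : ℝ) * K ^ n)) := Real.log_nonneg (by linarith)
    push_cast at h8
    calc (d : ℝ) ≤ C₁ * Real.log (2 * ((n : ℝ) * K ^ n)) := hd
      _ ≤ n₁ * Real.log (2 * ((n : ℝ) * K ^ n)) := mul_le_mul_of_nonneg_right hn₁ h9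
      _ ≤ n₁ * (2 * n * Real.log (2 * K)) := mul_le_mul_of_nonneg_left h8 (Nat.cast_nonneg _)
      _ = ((2 * n * n₁ : ℕ) : ℝ) * Real.log (2 * K) := by push_cast; ring
      _ ≤ c' * Real.log (2 * K) := mul_le_mul_of_nonneg_right (by exact_mod_cast hc1) hlog0
  · rw [Real.rpow_natCast]
    calc (T.card : ℝ) ≤ n₁ * ((n : ℝ) * K ^ n) ^ n₁ := hT.trans (hCK _ hM1)
      _ = ((n₁ * n ^ n₁ : ℕ) : ℝ) * K ^ (n * n₁) := by
        rw [mul_pow, ← pow_mul]; push_cast; ring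
      _ ≤ c' * K ^ c' := mul_le_mul (by exact_mod_cast hc3) (pow_le_pow_right₀ hK1 hc2)
        (by positivity) (Nat.cast_nonneg _)

/-- the sets of integer points for which Q1 is known -/
theorem known_concl (C : ℝ) : ∃ c : ℕ, ∀ c' : ℕ, c ≤ c' → ∀ (d : ℕ) (K : ℝ)
    (B : Finset (Fin d → ℤ)), 1 ≤ K → B.Nonempty →
    (((hull B).ncard : ℝ) ≤ C * K ^ C * B.card ∨ Pool.Agent.R424.EX.StarZ B) →
    ((B + B).card : ℝ) ≤ C * K ^ C * B.card → Concl (c' : ℝ) K B := by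
  obtain ⟨n, hn1, hn, hCK⟩ := nat_const C
  obtain ⟨C₁, hC₁⟩ := Pool.Agent.R424.EX.star_concl
  obtain ⟨C₂, hC₂⟩ := Pool.Agent.R424.EX.concl_of.{0} 1 1
  obtain ⟨c₁, hc₁⟩ := concl_poly.{0} C₁ n hn1
  obtain ⟨c₂, hc₂⟩ := concl_poly.{0} C₂ n hn1
  refine ⟨c₁ + c₂, ?_⟩
  intro c' hc' d K B hK1 hB hor hBB
  have hM := hCK K hK1
  have hBB' : ((B + B).card : ℝ) ≤ (n * K ^ n) * B.card :=
    hBB.trans (mul_le_mul_of_nonneg_right hM (Nat.cast_nonneg _))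
  have hM1 := one_le_K hB hBB'
  rcases hor with hor | hor
  · refine hc₂ c' (by omega) _ K B hK1 ?_
    refine hC₂ (Fin d → ℤ) (n * K ^ n) B hB hBB' d B (AddMonoidHom.id _) ⊥ 0 ?_
    rw [Nat.cast_one, one_mul, pow_one]
    refine ⟨hB, inferInstance, hBB', hor.trans (mul_le_mul_of_nonneg_right hM
      (Nat.cast_nonneg _)), ?_, ?_⟩
    · rw [AddSubgroup.card_bot, Nat.cast_one, mul_one]
      exact le_mul_of_one_le_left (Nat.cast_nonneg _) hM1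
    · have h1 : {a : Fin d → ℤ | a ∈ B ∧ ∃ x ∈ B, ∃ h ∈ (⊥ : AddSubgroup (Fin d → ℤ)),
          a = 0 + (AddMonoidHom.id (Fin d → ℤ)) x + h} = (B : Set (Fin d → ℤ)) := by
        ext a
        constructor
        · exact fun h => h.1
        · intro h
          exact ⟨h, a, h, 0, AddSubgroup.zero_mem _, by simp⟩
      rw [h1, Set.ncard_coe_finset]
      exact le_mul_of_one_le_left (Nat.cast_nonneg _) hM1
  · exact hc₁ c' (by omega) _ K B hK1 (hC₁ d _ B hB hor hBB')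

/-- images of dense and star-shaped sets -/
theorem known_images (C : ℝ) : ∃ C' : ℝ, ∀ (Γ' : Type v) [AddCommGroup Γ'] [DecidableEq Γ']
    (d : ℕ) (f : (Fin d → ℤ) →+ Γ') (H : AddSubgroup Γ') (K : ℝ) (B : Finset (Fin d → ℤ))
    (A T : Finset Γ'), Finite H → B.Nonempty →
    (((hull B).ncard : ℝ) ≤ C * K ^ C * B.card ∨ Pool.Agent.R424.EX.StarZ B) →
    ((B + B).card : ℝ) ≤ C * K ^ C * B.card → A.Nonempty →
    ((A + A).card : ℝ) ≤ K * A.card → (T.card : ℝ) ≤ C * K ^ C →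
    (∀ a ∈ A, ∃ t ∈ T, ∃ b ∈ B, ∃ h ∈ H, a = t + f b + h) →
    ({y | ∃ b ∈ B, ∃ h ∈ H, y = f b + h}.ncard : ℝ) ≤ C * K ^ C * A.card → Concl C' K A := by
  obtain ⟨c₁, hc₁⟩ := known_concl C
  obtain ⟨n, hn1, hn, hCK⟩ := nat_const C
  obtain ⟨C', hC'⟩ := images.{0, v} ((c₁ + n : ℕ) : ℝ)
  refine ⟨C', ?_⟩
  intro Γ' _ _ d f H K B A T hH hB hor hBB hA hK hT hcov hsz
  have hK1 := one_le_K hA hK
  have hle : C * K ^ C ≤ ((c₁ + n : ℕ) : ℝ) * K ^ ((c₁ + n : ℕ) : ℝ) := by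
    rw [Real.rpow_natCast]
    refine cpow_mono (hn.trans ?_) hK1
    exact_mod_cast Nat.le_add_left _ _
  refine hC' (Fin d → ℤ) Γ' f H K B A T hH hB
    (hBB.trans (mul_le_mul_of_nonneg_right hle (Nat.cast_nonneg _)))
    (hc₁ _ (Nat.le_add_right _ _) d K B hK1 hB hor hBB) hA hK (hT.trans hle) hcov
    (hsz.trans (mul_le_mul_of_nonneg_right hle (Nat.cast_nonneg _)))

end Pool.Agent.H28.FB
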