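import Pool.Agent.H28.FB.B
import Pool.Agent.H28.FB.K

/-!
From a fibre to the whole set (helper file for `MP_dd2a7c_co.FibresDecide`).
-/

set_option autoImplicit false

namespace Pool.Agent.H28.FB

open Finset
open Pool.Agent.Y806.DF Pool.Agent.R92.Star Pool.Agent.R424.EX Pool.Agent.H608VF
open scoped Pointwise

universe u v

/-- coordinates in a subgroup of `ℤ ^ d` -/
theorem exists_param {d : ℕ} (Λ : AddSubgroup (Fin d → ℤ)) :
    ∃ (r : ℕ) (θ : (Fin r → ℤ) →+ (Fin d → ℤ)), r ≤ d ∧ Function.Injective θ ∧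
      ∀ w, w ∈ Λ ↔ ∃ v, θ v = w := by
  let L : Submodule ℤ (Fin d → ℤ) := AddSubgroup.toIntSubmodule Λ
  let b := Module.finBasis ℤ L
  let θ : (Fin (Module.finrank ℤ L) → ℤ) →ₗ[ℤ] (Fin d → ℤ) :=
    L.subtype ∘ₗ b.equivFun.symm.toLinearMap
  refine ⟨Module.finrank ℤ L, θ.toAddMonoidHom, ?_, ?_, ?_⟩
  · have h1 := Submodule.finrank_le L
    rwa [Module.finrank_fin_fun] at h1
  · intro x y h
    have h1 : θ x = θ y := h
    exact b.equivFun.symm.injective (Subtype.ext h1)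
  · intro w
    constructor
    · intro hw
      refine ⟨b.equivFun ⟨w, hw⟩, ?_⟩
      show θ _ = w
      simp [θ]
    · rintro ⟨v, rfl⟩
      exact (b.equivFun.symm v).2

/-- constants -/
theorem big_const {n : ℕ} (hn1 : 1 ≤ n) {K : ℝ} (hK1 : 1 ≤ K) :
    K ≤ ((4 ^ n : ℕ) : ℝ) * K ^ (4 ^ n : ℕ) ∧
      (n : ℝ) * K ^ n ≤ ((4 ^ n : ℕ) : ℝ) * K ^ (4 ^ n : ℕ) ∧
      ∀ (d : ℕ), (d : ℝ) ≤ n * Real.log (2 * K) →
        (4 : ℝ) ^ d ≤ ((4 ^ n : ℕ) : ℝ) * K ^ (4 ^ n : ℕ) := by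
  have hK0 : 0 < K := by linarith
  have h4n : 2 * n ≤ 4 ^ n := by
    calc 2 * n ≤ 2 ^ (2 * n) := Nat.lt_two_pow_self.le
      _ = 4 ^ n := by rw [pow_mul]; norm_num
  refine ⟨?_, ?_, ?_⟩
  · have e1 : (1 : ℝ) ≤ ((4 ^ n : ℕ) : ℝ) := by exact_mod_cast Nat.one_le_pow _ _ (by norm_num)
    have e2 : K ≤ K ^ (4 ^ n : ℕ) := le_self_pow₀ hK1 (by positivity)
    calc K = 1 * K := (one_mul K).symm
      _ ≤ _ := mul_le_mul e1 e2 hK0.le (Nat.cast_nonneg _)
  · have e1 : ((n : ℕ) : ℝ) ≤ ((4 ^ n : ℕ) : ℝ) := by exact_mod_cast (by omega : n ≤ 4 ^ n)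
    exact mul_le_mul e1 (pow_le_pow_right₀ hK1 (by omega)) (by positivity) (Nat.cast_nonneg _)
  · intro d e1
    have e2 : Real.log 4 ≤ 2 := by
      rw [show (4 : ℝ) = 2 ^ 2 by norm_num, Real.log_pow]
      have := Real.log_two_lt_d9
      push_cast
      linarith
    have e3 : Real.log ((4 : ℝ) ^ d) ≤ Real.log ((2 * K) ^ (2 * n)) := by
      rw [Real.log_pow, Real.log_pow]
      calc (d : ℝ) * Real.log 4 ≤ d * 2 := mul_le_mul_of_nonneg_left e2 (Nat.cast_nonneg _)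
        _ ≤ (n * Real.log (2 * K)) * 2 := mul_le_mul_of_nonneg_right e1 (by norm_num)
        _ = ((2 * n : ℕ) : ℝ) * Real.log (2 * K) := by push_cast; ring
    have e4 : (4 : ℝ) ^ d ≤ (2 * K) ^ (2 * n) :=
      (Real.log_le_log_iff (by positivity) (by positivity)).1 e3
    calc (4 : ℝ) ^ d ≤ (2 * K) ^ (2 * n) := e4
      _ = ((4 ^ n : ℕ) : ℝ) * K ^ (2 * n) := by
        rw [mul_pow, pow_mul 2 2 n]
        push_cast
        norm_num
      _ ≤ ((4 ^ n : ℕ) : ℝ) * K ^ (4 ^ n : ℕ) :=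
        mul_le_mul_of_nonneg_left (pow_le_pow_right₀ hK1 h4n) (Nat.cast_nonneg _)

theorem sym_of_body {r : ℕ} {B : Set (Fin r → ℝ)} (hB : Body B) : Sym B :=
  ⟨hB.1, hB.2.1, hB.2.2.2, hB.2.2.1.mono interior_subset⟩

/-- powers of the constants -/
theorem pow_const (a e c : ℕ) {K K' : ℝ} (hK1 : 1 ≤ K) (hKK : K ≤ K') (hc : a ^ e + a * e ≤ c) :
    ((a : ℝ) * K ^ a) ^ e ≤ (c : ℝ) * K' ^ (c : ℝ) := by
  rw [Real.rpow_natCast, mul_pow, ← pow_mul]
  have h1 : ((a : ℝ)) ^ e ≤ c := by exact_mod_cast (by omega : a ^ e ≤ c)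
  have h2 : K ^ (a * e) ≤ K' ^ c := by
    calc K ^ (a * e) ≤ K ^ c := pow_le_pow_right₀ hK1 (by omega)
      _ ≤ K' ^ c := pow_le_pow_left₀ (by linarith) hKK c
  exact mul_le_mul h1 h2 (by positivity) (Nat.cast_nonneg _)

/-- **From a fibre to the set, up to a finite subgroup**: the set modulo `H`. -/
theorem lift_concl (C : ℝ) (e : ℕ) : ∃ C' : ℝ, ∀ (Γ : Type u) [AddCommGroup Γ] [DecidableEq Γ]
    (H : AddSubgroup Γ) (K : ℝ) (A : Finset Γ), A.Nonempty →
    ((A + A).card : ℝ) ≤ K * A.card → ∀ [Finite H],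
    ((A + fs H).card : ℝ) ≤ ((e : ℝ) * K ^ e) * A.card →
    (∀ [DecidableEq (Γ ⧸ H)], Concl C (K ^ 3) (A.image (QuotientAddGroup.mk' H))) →
    Concl C' K A := by
  classical
  obtain ⟨n, hn1, hn, hCK⟩ := nat_const C
  obtain ⟨a, ha⟩ : ∃ a : ℕ, a = 4 ^ n := ⟨_, rfl⟩
  obtain ⟨c, hc⟩ : ∃ c : ℕ, c = a + 3 * a + e + 1 := ⟨_, rfl⟩
  obtain ⟨C', hC'⟩ := concl_of_weak.{u} (c : ℝ)
  refine ⟨C', ?_⟩
  intro Γ _ _ H K A hA hK _ hAH hcon
  refine hC' Γ K A hA hK ?_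
  have hK1 := one_le hA hK
  have hK0 : 0 < K := by linarith
  have hK31 : (1 : ℝ) ≤ K ^ 3 := one_le_pow₀ hK1
  obtain ⟨-, hM2, hM3⟩ := big_const hn1 hK31
  rw [← ha] at hM2 hM3
  have hMc : (a : ℝ) * (K ^ 3) ^ a ≤ (c : ℝ) * K ^ (c : ℝ) := by
    rw [Real.rpow_natCast, ← pow_mul]
    exact mul_le_mul (by exact_mod_cast (by omega : a ≤ c))
      (pow_le_pow_right₀ hK1 (by omega)) (by positivity) (Nat.cast_nonneg _)
  have hec : (e : ℝ) * K ^ e ≤ (c : ℝ) * K ^ (c : ℝ) := by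
    rw [Real.rpow_natCast]
    exact mul_le_mul (by exact_mod_cast (by omega : e ≤ c))
      (pow_le_pow_right₀ hK1 (by omega)) (by positivity) (Nat.cast_nonneg _)
  have hc1 : (1 : ℝ) ≤ (c : ℝ) * K ^ (c : ℝ) := by
    rw [Real.rpow_natCast]
    have e1 : (1 : ℝ) ≤ c := by exact_mod_cast (by omega : 1 ≤ c)
    have e2 : (1 : ℝ) ≤ K ^ c := one_le_pow₀ hK1
    nlinarith
  set q : Γ →+ Γ ⧸ H := QuotientAddGroup.mk' H with hq
  have hqker : ∀ x, q x = 0 ↔ x ∈ H := fun x => QuotientAddGroup.eq_zero_iff x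
  have hqs : Function.Surjective q := QuotientAddGroup.mk'_surjective H
  obtain ⟨d, B, ψ', H', T, hd, hB, hH', hvol, hT, hcov⟩ := hcon
  have hsym := sym_of_body hB
  have hfin : (lat B).Finite := lat_finite hB.2.1.isBounded
  have hd4 : (4 : ℝ) ^ d ≤ (a : ℝ) * (K ^ 3) ^ a := hM3 d (hd.trans
    (mul_le_mul_of_nonneg_right hn (Real.log_nonneg (by linarith))))
  obtain ⟨ψ, hψ⟩ := lift q hqs ψ'
  choose r hr using hqs
  -- the finite subgroup
  have hfinH : ((H'.comap q : AddSubgroup Γ) : Set Γ).Finite := by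
    have h1 : ((H'.comap q : AddSubgroup Γ) : Set Γ) ⊆
        ((H' : Set (Γ ⧸ H)).image r) + (H : Set Γ) := by
      intro x hx
      refine Set.mem_add.2 ⟨r (q x), ⟨q x, hx, rfl⟩, x - r (q x), ?_, by abel⟩
      have h2 : q (x - r (q x)) = 0 := by rw [map_sub, hr, sub_self]
      exact (hqker _).1 h2
    exact (((Set.toFinite _).image r).add (Set.toFinite _)).subset h1
  have hfinH' : Finite (H'.comap q : AddSubgroup Γ) := hfinH.to_subtype
  have hcardH : Nat.card (H'.comap q : AddSubgroup Γ) ≤ Nat.card H' * Nat.card H := by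
    have h1 := card_le_fib q (fs (H'.comap q)) (fs H) (by
      intro x _ y _ e
      rw [mem_fs, ← hqker, map_sub, e, sub_self])
    have h2 : ((fs (H'.comap q)).image q).card ≤ (fs H').card := by
      refine Finset.card_le_card ?_
      intro z hz
      obtain ⟨x, hx, rfl⟩ := Finset.mem_image.1 hz
      exact (mem_fs H' _).2 ((mem_fs _ x).1 hx)
    rw [card_fs, card_fs] at h1
    rw [card_fs] at h2
    exact h1.trans (Nat.mul_le_mul_right _ h2)
  refine ⟨d, hfin.toFinset, ψ, H'.comap q, T.image r, ?_, ?_, ?_, hfinH', ?_, ?_, ?_⟩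
  · refine ⟨0, ?_⟩
    rw [Set.Finite.mem_toFinset]
    show re 0 ∈ B
    have : re (0 : Fin d → ℤ) = 0 := by funext i; simp [re]
    rw [this]
    exact hsym.zero
  · have h1 : (hfin.toFinset + hfin.toFinset).card ≤ num B 2 := by
      rw [num, Set.ncard_eq_toFinset_card _ (hsym.finite 2)]
      refine Finset.card_le_card ?_
      intro x hx
      obtain ⟨v, hv, w, hw, rfl⟩ := Finset.mem_add.1 hx
      rw [Set.Finite.mem_toFinset] at hv hw ⊢
      have h2 := hsym.add (by norm_num) (by norm_num) (one_lat hv) (one_lat hw)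
      have h3 : (1 : ℝ) + 1 = 2 := by norm_num
      rwa [h3] at h2
    have h2 := num_le hsym hd4 (t := 2) (by norm_num) 1 (by norm_num)
    rw [pow_one] at h2
    calc ((hfin.toFinset + hfin.toFinset).card : ℝ) ≤ num B 2 := by exact_mod_cast h1
      _ ≤ ((a : ℝ) * (K ^ 3) ^ a) * (lat B).ncard := h2
      _ ≤ ((c : ℝ) * K ^ (c : ℝ)) * hfin.toFinset.card := by
        rw [Set.ncard_eq_toFinset_card _ hfin]
        exact mul_le_mul_of_nonneg_right hMc (Nat.cast_nonneg _)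
  · have h1 := hull_le hsym (t := 1) (X := hfin.toFinset) (fun w hw =>
      one_lat ((Set.Finite.mem_toFinset _).1 hw))
    rw [num_one, Set.ncard_eq_toFinset_card _ hfin] at h1
    calc ((hull hfin.toFinset).ncard : ℝ) ≤ 1 * hfin.toFinset.card := by
          rw [one_mul]; exact_mod_cast h1
      _ ≤ _ := mul_le_mul_of_nonneg_right hc1 (Nat.cast_nonneg _)
  · have h1 := ncard_cpr_le (V := ((hfin.toFinset : Finset (Fin d → ℤ)) : Set (Fin d → ℤ)))
      (Finset.finite_toSet _) ψ (H'.comap q)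
    rw [Set.ncard_coe_finset] at h1
    have h2 := fib q A (fs H) 0 (fun h hh => (hqker h).2 ((mem_fs H h).1 hh))
    rw [card_fs] at h2
    have h3 : (cpr ((hfin.toFinset : Finset (Fin d → ℤ)) : Set (Fin d → ℤ)) ψ
        (H'.comap q)).ncard ≤ (A + fs H).card := by
      calc _ ≤ hfin.toFinset.card * Nat.card (H'.comap q : AddSubgroup Γ) := h1
        _ ≤ hfin.toFinset.card * (Nat.card H' * Nat.card H) := Nat.mul_le_mul_left _ hcardH
        _ = ((lat B).ncard * Nat.card H') * Nat.card H := by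
          rw [Set.ncard_eq_toFinset_card _ hfin]; ring
        _ ≤ (A.image q).card * Nat.card H := Nat.mul_le_mul_right _ hvol
        _ ≤ (A + fs H).card := h2
    calc ((cpr ((hfin.toFinset : Finset (Fin d → ℤ)) : Set (Fin d → ℤ)) ψ
        (H'.comap q)).ncard : ℝ) ≤ (A + fs H).card := by exact_mod_cast h3
      _ ≤ ((e : ℝ) * K ^ e) * A.card := hAH
      _ ≤ _ := mul_le_mul_of_nonneg_right hec (Nat.cast_nonneg _)
  · calc ((T.image r).card : ℝ) ≤ T.card := by exact_mod_cast Finset.card_image_le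
      _ ≤ C * (K ^ 3) ^ C := hT
      _ ≤ n * (K ^ 3) ^ n := hCK _ hK31
      _ ≤ _ := hM2
      _ ≤ _ := hMc
  · intro x hx
    obtain ⟨t, ht, v, hv, h, hh, e⟩ := hcov (q x) (Finset.mem_image_of_mem q hx)
    refine ⟨r t, Finset.mem_image_of_mem _ ht, ψ v + (x - r t - ψ v), ⟨v, ?_, x - r t - ψ v, ?_,
      rfl⟩, by abel⟩
    · exact Finset.mem_coe.2 ((Set.Finite.mem_toFinset _).2 hv)
    · show q (x - r t - ψ v) ∈ H'
      rw [map_sub, map_sub, hr, hψ, e]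
      have e2 : t + ψ' v + h - t - ψ' v = h := by abel
      rw [e2]
      exact hh

end Pool.Agent.H28.FB
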