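import Pool.Agent.H28.FB.C

/-!
Commensurable sets in one group (helper file for `MP_dd2a7c_co.IsogenyInvariance`).
-/

set_option autoImplicit false

namespace Pool.Agent.H28.FB

open Finset
open Pool.Agent.Y806.DF Pool.Agent.R92.Star Pool.Agent.R424.EX Pool.Agent.H608VF
open scoped Pointwise

universe u v

/-- **Commensurable sets in one group.** -/
theorem one_group (C : ℝ) (m : ℕ) (hm : 0 < m) : ∃ C' : ℝ, ∀ (Γ : Type u) [AddCommGroup Γ]
    [DecidableEq Γ] (K : ℝ) (A A' F T₁ T₂ : Finset Γ), A.Nonempty →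
    ((A + A).card : ℝ) ≤ K * A.card → A' ⊆ A → (A.card : ℝ) ≤ C * K ^ C * A'.card →
    (T₁.card : ℝ) ≤ C * K ^ C →
    (∀ a ∈ A', ∃ x ∈ T₁, ∃ y ∈ F, ∃ z ∈ F, m • a = x + (y - z)) →
    (T₂.card : ℝ) ≤ C * K ^ C → (∀ f ∈ F, ∃ x ∈ T₂, ∃ y ∈ A, ∃ z ∈ A, f = x + (y - z)) →
    Concl C K F → Concl C' K A := by
  classical
  obtain ⟨n, hn1, hn, hCK⟩ := nat_const C
  obtain ⟨a, ha⟩ : ∃ a : ℕ, a = 4 ^ n := ⟨_, rfl⟩
  obtain ⟨E, hE⟩ : ∃ E : ℕ, E = 23 + (4 * m + 7) := ⟨_, rfl⟩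
  obtain ⟨c, hc⟩ : ∃ c : ℕ, c = a ^ E + a * E := ⟨_, rfl⟩
  obtain ⟨C₃, hC₃⟩ := known_images.{u} (c : ℝ)
  obtain ⟨C₄, hC₄⟩ := Pool.Agent.R424.EX.ext.{u, u} C₃ m hm
  obtain ⟨C', hC'⟩ := lift_concl.{u} C₄ (a ^ 8 + a * 8)
  refine ⟨C', ?_⟩
  intro Γ _ _ K A A' F T₁ T₂ hA hK hA'A hA'le hT₁ hcov₁ hT₂ hcov₂ hcon
  have hK1 := one_le hA hK
  have hK0 : 0 < K := by linarith
  obtain ⟨hM1, hM2, hM3⟩ := big_const hn1 hK1
  rw [← ha] at hM1 hM2 hM3
  obtain ⟨M, hM⟩ : ∃ M : ℝ, M = (a : ℝ) * K ^ a := ⟨_, rfl⟩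
  rw [← hM] at hM1 hM2 hM3
  have hCM : C * K ^ C ≤ M := (hCK K hK1).trans hM2
  have hM0 : 1 ≤ M := hK1.trans hM1
  obtain ⟨d, B, ψ, H, T, hd, hB, hH, hvol, hT, hcov⟩ := hcon
  have hsym := sym_of_body hB
  have hd4 : (4 : ℝ) ^ d ≤ M := hM3 d (hd.trans
    (mul_le_mul_of_nonneg_right hn (Real.log_nonneg (by linarith))))
  set q : Γ →+ Γ ⧸ H := QuotientAddGroup.mk' H with hq
  have hqker : ∀ x, q x = 0 ↔ x ∈ H := fun x => QuotientAddGroup.eq_zero_iff x
  have hAM : ((A + A).card : ℝ) ≤ M * A.card :=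
    hK.trans (mul_le_mul_of_nonneg_right hM1 (Nat.cast_nonneg _))
  obtain ⟨X, T', hXne, hXX, hhull, hT', hXR, hcovX, hXsz, hAH⟩ := fwd m hm hA hAM hA'A
    (hA'le.trans (mul_le_mul_of_nonneg_right hCM (Nat.cast_nonneg _))) (hT₁.trans hCM) hcov₁
    (hT₂.trans hCM) hcov₂ hsym hd4 ψ H
    (by
      have h1 : ((lat B).ncard : ℝ) * Nat.card H ≤ F.card := by exact_mod_cast hvol
      exact h1.trans (le_mul_of_one_le_left (Nat.cast_nonneg _) hM0))
    (hT.trans hCM) hcov q hqker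
  -- the group `m (Γ / H)`
  set R : AddSubgroup (Γ ⧸ H) := (nsmulAddMonoidHom m : (Γ ⧸ H) →+ (Γ ⧸ H)).range with hR
  set f : (Γ ⧸ H) →+ R := (nsmulAddMonoidHom m : (Γ ⧸ H) →+ (Γ ⧸ H)).rangeRestrict with hf
  have hfe : ∀ x, ((f x : R) : Γ ⧸ H) = m • x := fun _ => rfl
  have hfs : Function.Surjective f := AddMonoidHom.rangeRestrict_surjective _
  have hfker : ∀ x, f x = 0 → m • x = 0 := by
    intro x hx
    rw [← hfe, hx]
    rfl
  -- parameters
  obtain ⟨r, θ, -, hθ, hΛ⟩ := exists_param (R.comap (q.comp ψ))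
  have hθR : ∀ v, (q.comp (ψ.comp θ)) v ∈ R := fun v => (hΛ (θ v)).2 ⟨v, rfl⟩
  set ψR : (Fin r → ℤ) →+ R := (q.comp (ψ.comp θ)).codRestrict R hθR with hψR
  have hψRe : ∀ v, ((ψR v : R) : Γ ⧸ H) = q (ψ (θ v)) := fun _ => rfl
  set XR : Finset (Fin r → ℤ) := X.preimage θ hθ.injOn with hXRdef
  have hXRmem : ∀ v, v ∈ XR ↔ θ v ∈ X := fun v => Finset.mem_preimage
  have hXRimg : XR.image θ = X := by
    ext w
    rw [Finset.mem_image]
    constructor
    · rintro ⟨v, hv, rfl⟩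
      exact (hXRmem v).1 hv
    · intro hw
      obtain ⟨x, hx⟩ := hXR w hw
      have h1 : w ∈ R.comap (q.comp ψ) := ⟨q x, hx.symm⟩
      obtain ⟨v, rfl⟩ := (hΛ w).1 h1
      exact ⟨v, (hXRmem v).2 hw, rfl⟩
  have hXRcard : XR.card = X.card := by
    rw [← hXRimg, Finset.card_image_of_injective _ hθ]
  have hXRne : XR.Nonempty := by
    rw [← Finset.card_pos, hXRcard]
    exact hXne.card_pos
  have hXRadd : (XR + XR).card = (X + X).card := by
    rw [← hXRimg, ← Finset.image_add θ, Finset.card_image_of_injective _ hθ]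
  have hXRhull : (hull XR).ncard ≤ (hull X).ncard := hull_map θ hθ 0 X XR (fun v hv => by
    rw [zero_add]
    exact (hXRmem v).1 hv)
  -- the constants
  obtain ⟨K₂, hK₂⟩ : ∃ K₂ : ℝ, K₂ = (K ^ 3) ^ 3 := ⟨_, rfl⟩
  have hKK₂ : K ≤ K₂ := by
    rw [hK₂, ← pow_mul]
    exact le_self_pow₀ hK1 (by norm_num)
  have hbd : ∀ e : ℕ, e ≤ E → M ^ e ≤ (c : ℝ) * K₂ ^ (c : ℝ) := by
    intro e he
    calc M ^ e ≤ M ^ E := pow_le_pow_right₀ hM0 he
      _ ≤ _ := by
        rw [hM]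
        exact pow_const a E c hK1 hKK₂ hc.ge
  -- the set `m A` modulo `H`
  have hcon3 : Concl C₃ K₂ ((A.image q).image f) := by
    refine hC₃ R r ψR ⊥ K₂ XR ((A.image q).image f) (T'.image (fun x => f (q x))) inferInstance
      hXRne (Or.inl ?_) ?_ ((hA.image q).image f) ?_ ?_ ?_ ?_
    · calc ((hull XR).ncard : ℝ) ≤ (hull X).ncard := by exact_mod_cast hXRhull
        _ ≤ M ^ (4 * m + 7) * X.card := hhull
        _ ≤ (c : ℝ) * K₂ ^ (c : ℝ) * XR.card := by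
          rw [hXRcard]
          exact mul_le_mul_of_nonneg_right (hbd _ (by omega)) (Nat.cast_nonneg _)
    · rw [hXRadd, hXRcard]
      exact hXX.trans (mul_le_mul_of_nonneg_right (hbd _ (by omega)) (Nat.cast_nonneg _))
    · rw [hK₂]
      exact image_doubling f (hA.image q) (image_doubling q hA hK)
    · calc ((T'.image (fun x => f (q x))).card : ℝ) ≤ T'.card := by
            exact_mod_cast Finset.card_image_le
        _ ≤ M ^ 5 := hT'
        _ ≤ _ := hbd _ (by omega)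
    · intro y hy
      obtain ⟨z, hz, rfl⟩ := Finset.mem_image.1 hy
      obtain ⟨x, hx, rfl⟩ := Finset.mem_image.1 hz
      obtain ⟨t, ht, w, hw, e⟩ := hcovX x hx
      rw [← hXRimg] at hw
      obtain ⟨v, hv, rfl⟩ := Finset.mem_image.1 hw
      refine ⟨f (q t), Finset.mem_image_of_mem _ ht, v, hv, 0, AddSubgroup.zero_mem _, ?_⟩
      rw [add_zero]
      apply Subtype.ext
      rw [hfe, e, AddSubgroup.coe_add, hfe, hψRe]
    · have h1 : {y : R | ∃ b ∈ XR, ∃ h ∈ (⊥ : AddSubgroup R), y = ψR b + h}.ncard ≤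
          (X.image (fun w => q (ψ w))).card := by
        rw [← Set.ncard_coe_finset]
        refine Set.ncard_le_ncard_of_injOn (fun y : R => (y : Γ ⧸ H)) ?_
          Subtype.val_injective.injOn (Finset.finite_toSet _)
        rintro y ⟨b, hb, h, hh, rfl⟩
        rw [AddSubgroup.mem_bot] at hh
        subst hh
        rw [add_zero]
        exact Finset.mem_coe.2 (Finset.mem_image.2 ⟨θ b, (hXRmem b).1 hb, rfl⟩)
      have h2 : (A.image (fun a => m • q a)).card = ((A.image q).image f).card := by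
        have h3 : (A.image (fun a => m • q a)) =
            ((A.image q).image f).image (fun y : R => (y : Γ ⧸ H)) := by
          rw [Finset.image_image, Finset.image_image]
          rfl
        rw [h3, Finset.card_image_of_injective _ Subtype.val_injective]
      calc ({y : R | ∃ b ∈ XR, ∃ h ∈ (⊥ : AddSubgroup R), y = ψR b + h}.ncard : ℝ)
          ≤ (X.image (fun w => q (ψ w))).card := by exact_mod_cast h1
        _ ≤ M ^ 7 * (A.image (fun a => m • q a)).card := hXsz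
        _ = M ^ 7 * ((A.image q).image f).card := by rw [h2]
        _ ≤ _ := mul_le_mul_of_nonneg_right (hbd _ (by omega)) (Nat.cast_nonneg _)
  rw [hK₂] at hcon3
  have hcon4 : Concl C₄ (K ^ 3) (A.image q) :=
    hC₄ (Γ ⧸ H) R f hfs hfker (K ^ 3) (A.image q) (hA.image q) (image_doubling q hA hK) hcon3
  refine hC' Γ H K A hA hK ?_ ?_
  · refine hAH.trans (mul_le_mul_of_nonneg_right ?_ (Nat.cast_nonneg _))
    have h1 := pow_const a 8 (a ^ 8 + a * 8) hK1 (le_refl K) le_rfl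
    rw [← hM, Real.rpow_natCast] at h1
    exact h1
  · intro inst
    rw [Subsingleton.elim inst
      (fun a b => QuotientAddGroup.instDecidableEqQuotientAddSubgroupOfDecidablePredMem H a b)]
    exact hcon4

end Pool.Agent.H28.FB
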