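import Pool.Agent.H28.FB.D

/-!
From a set to its fibres (helper file for `MP_dd2a7c_co.FibresDecide`).
-/

set_option autoImplicit false

namespace Pool.Agent.H28.FB

open Finset
open Pool.Agent.Y806.DF Pool.Agent.R92.Star Pool.Agent.R424.EX Pool.Agent.H608VF
open scoped Pointwise

universe u v

/-- the points over a convex set form a convex set -/
theorem hull_pre {r d : ℕ} {B : Set (Fin d → ℝ)} (hB : Sym B) (t : ℝ)
    (θ : (Fin r → ℤ) →+ (Fin d → ℤ)) (X : Finset (Fin r → ℤ))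
    (hX : ∀ v, v ∈ X ↔ θ v ∈ lat (t • B)) : hull X ⊆ (X : Set (Fin r → ℤ)) := by
  intro v hv
  have h1 : Pool.Agent.Y806.DF.ext θ (re v) ∈
      convexHull ℝ (Pool.Agent.Y806.DF.ext θ '' (re '' (X : Set (Fin r → ℤ)))) := by
    rw [← LinearMap.image_convexHull]
    exact ⟨re v, hv, rfl⟩
  have h2 : convexHull ℝ (Pool.Agent.Y806.DF.ext θ '' (re '' (X : Set (Fin r → ℤ)))) ⊆ t • B := by
    refine convexHull_min ?_ (hB.smul t).conv
    rintro _ ⟨_, ⟨x, hx, rfl⟩, rfl⟩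
    rw [ext_re]
    exact (hX x).1 hx
  have h3 := h2 h1
  rw [ext_re] at h3
  exact Finset.mem_coe.2 ((hX v).2 h3)

/-- **From the set to a large part of a fibre.** The structure is inside the subgroup. -/
theorem fibre_of_set (C : ℝ) : ∃ C' : ℝ, ∀ (Γ : Type u) [AddCommGroup Γ] [DecidableEq Γ]
    (N : AddSubgroup Γ) (K : ℝ) (A : Finset Γ) (F : Finset N) (x₀ : Γ), A.Nonempty →
    ((A + A).card : ℝ) ≤ K * A.card → (∀ y ∈ F, x₀ + (y : Γ) ∈ A) →
    (A.card : ℝ) ≤ C * K ^ C * (F.card * (QuotientAddGroup.mk' N '' (A : Set Γ)).ncard) →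
    Concl C K A → Concl C' K F := by
  classical
  obtain ⟨n, hn1, hn, hCK⟩ := nat_const C
  obtain ⟨a, ha⟩ : ∃ a : ℕ, a = 4 ^ n := ⟨_, rfl⟩
  obtain ⟨n', hn'⟩ : ∃ n' : ℕ, n' = a ^ 4 + a * 4 := ⟨_, rfl⟩
  obtain ⟨c, hc⟩ : ∃ c : ℕ, c = a ^ 5 + a * 5 := ⟨_, rfl⟩
  have ha1 : 1 ≤ a := by rw [ha]; exact Nat.one_le_pow _ _ (by norm_num)
  have hn'1 : 1 ≤ n' := by
    have h1 : 1 ≤ a ^ 4 := Nat.one_le_pow _ _ ha1
    omega
  obtain ⟨C₃, hC₃⟩ := concl_of_weak.{u} (c : ℝ)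
  obtain ⟨c₄, hc₄⟩ := concl_poly.{u} C₃ n' hn'1
  refine ⟨(c₄ : ℝ), ?_⟩
  intro Γ _ _ N K A F x₀ hA hK hFA hsize hcon
  have hK1 := one_le hA hK
  have hK0 : 0 < K := by linarith
  have hA0 : (0 : ℝ) < A.card := by exact_mod_cast hA.card_pos
  obtain ⟨hM1, hM2, hM3⟩ := big_const hn1 hK1
  rw [← ha] at hM1 hM2 hM3
  obtain ⟨M, hM⟩ : ∃ M : ℝ, M = (a : ℝ) * K ^ a := ⟨_, rfl⟩
  rw [← hM] at hM1 hM2 hM3
  have hCM : C * K ^ C ≤ M := (hCK K hK1).trans hM2
  have hM0 : 1 ≤ M := hK1.trans hM1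
  have hMpos : 0 ≤ M := by linarith
  refine hc₄ c₄ le_rfl N K F hK1 ?_
  obtain ⟨K', hK'⟩ : ∃ K' : ℝ, K' = (n' : ℝ) * K ^ n' := ⟨_, rfl⟩
  rw [← hK']
  have hM4 : M ^ 4 ≤ K' := by
    have h1 := pow_const a 4 n' hK1 (le_refl K) hn'.ge
    rwa [← hM, Real.rpow_natCast, ← hK'] at h1
  have hKK' : K ≤ K' := by
    calc K ≤ M := hM1
      _ ≤ M ^ 4 := le_self_pow₀ hM0 (by norm_num)
      _ ≤ K' := hM4
  have hbd : ∀ e : ℕ, e ≤ 5 → M ^ e ≤ (c : ℝ) * K' ^ (c : ℝ) := by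
    intro e he
    calc M ^ e ≤ M ^ 5 := pow_le_pow_right₀ hM0 he
      _ ≤ _ := by
        rw [hM]
        exact pow_const a 5 c hK1 hKK' hc.ge
  have hFne : F.Nonempty := by
    rw [← Finset.card_pos]
    by_contra hcon
    have h0 : F.card = 0 := by omega
    rw [h0, Nat.cast_zero, zero_mul, mul_zero] at hsize
    linarith
  obtain ⟨d, B, ψ, H, T, hd, hB, hH, hvol, hT, hcov⟩ := hcon
  have hsym := sym_of_body hB
  have hd4 : (4 : ℝ) ^ d ≤ M := hM3 d (hd.trans
    (mul_le_mul_of_nonneg_right hn (Real.log_nonneg (by linarith))))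
  set π : Γ →+ Γ ⧸ N := QuotientAddGroup.mk' N with hπ
  have hπker : ∀ x, π x = 0 ↔ x ∈ N := fun x => QuotientAddGroup.eq_zero_iff x
  have hcard : (π '' (A : Set Γ)).ncard = (A.image π).card := by
    rw [← Finset.coe_image, Set.ncard_coe_finset]
  rw [hcard] at hsize
  have hπpos : (0 : ℝ) < (A.image π).card := by exact_mod_cast (hA.image π).card_pos
  have hsize' : (A.card : ℝ) ≤ M * (F.card * (A.image π).card) :=
    hsize.trans (mul_le_mul_of_nonneg_right hCM (by positivity))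
  set q : Γ →+ Γ ⧸ H := QuotientAddGroup.mk' H with hq
  have hqker : ∀ x, q x = 0 ↔ x ∈ H := fun x => QuotientAddGroup.eq_zero_iff x
  have hAM : ((A + A).card : ℝ) ≤ M * A.card :=
    hK.trans (mul_le_mul_of_nonneg_right hM1 (Nat.cast_nonneg _))
  -- the doubling of `F`
  set F₁ : Finset Γ := F.image (fun y : N => x₀ + (y : Γ)) with hF₁
  have hinj : Function.Injective (fun y : N => x₀ + (y : Γ)) := fun x y h =>
    Subtype.val_injective (add_left_cancel h)
  have hF₁card : F₁.card = F.card := Finset.card_image_of_injective _ hinj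
  have hF₁A : F₁ ⊆ A := by
    intro x hx
    obtain ⟨y, hy, rfl⟩ := Finset.mem_image.1 hx
    exact hFA y hy
  have hF₁π : ∀ f ∈ F₁, π f = π x₀ := by
    intro f hf
    obtain ⟨y, hy, rfl⟩ := Finset.mem_image.1 hf
    rw [map_add, (hπker _).2 y.2, add_zero]
  have hFF : ((F + F).card : ℝ) ≤ M ^ 4 * F.card := by
    have h1 : (F + F).card ≤ (F₁ + F₁).card := by
      refine Finset.card_le_card_of_injOn (fun y : N => x₀ + x₀ + (y : Γ)) ?_ ?_
      · intro y hy
        obtain ⟨u, hu, w, hw, rfl⟩ := Finset.mem_add.1 (Finset.mem_coe.1 hy)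
        refine Finset.mem_coe.2 (Finset.mem_add.2 ⟨x₀ + u, Finset.mem_image_of_mem _ hu, x₀ + w,
          Finset.mem_image_of_mem _ hw, ?_⟩)
        show x₀ + (u : Γ) + (x₀ + (w : Γ)) = x₀ + x₀ + ((u + w : N) : Γ)
        rw [AddSubgroup.coe_add]
        abel
      · exact fun x _ y _ h => Subtype.val_injective (add_left_cancel h)
    have h2 := fibU π hA hAM (F := F₁) (U := F₁) (Y := {0}) (i := 1) (j := 0) hF₁A hF₁π
      (by rw [hF₁card]; exact hsize') hF₁π (by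
        intro x hx
        refine Finset.mem_add.2 ⟨0, Finset.mem_singleton_self _, x - 0, mem_pr
          (mem_one (hF₁A hx)) ?_, by abel⟩
        rw [zero_nsmul]
        exact Finset.mem_zero.2 rfl)
    rw [Finset.card_singleton, Nat.cast_one, one_mul, hF₁card] at h2
    exact (by exact_mod_cast h1 : ((F + F).card : ℝ) ≤ (F₁ + F₁).card).trans h2
  -- the popular translate
  obtain ⟨t, -, ht⟩ := pigeon T F F hFne (fun t y => ∃ v ∈ lat B, ∃ h ∈ H,
    x₀ + (y : Γ) = t + ψ v + h) subset_rfl (fun y hy => hcov _ (hFA y hy))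
  set F₂ := F.filter (fun y : N => ∃ v ∈ lat B, ∃ h ∈ H, x₀ + (y : Γ) = t + ψ v + h) with hF₂
  have hF₂le : (F.card : ℝ) ≤ M * F₂.card := by
    calc (F.card : ℝ) ≤ ((T.card * F₂.card : ℕ) : ℝ) := by exact_mod_cast ht
      _ = T.card * F₂.card := by push_cast; ring
      _ ≤ M * F₂.card := mul_le_mul_of_nonneg_right (hT.trans hCM) (Nat.cast_nonneg _)
  have hF₂ne : F₂.Nonempty := by
    rw [← Finset.card_pos]
    by_contra hcon
    have h0 : F₂.card = 0 := by omega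
    rw [h0, Nat.cast_zero, mul_zero] at hF₂le
    have : (0 : ℝ) < F.card := by exact_mod_cast hFne.card_pos
    linarith
  obtain ⟨T₁, -, hT₁, hcov₁⟩ : ∃ T₁ : Finset N, T₁ ⊆ F ∧ (T₁.card : ℝ) ≤ M ^ 5 ∧
      ∀ p ∈ F, ∃ x ∈ T₁, ∃ y ∈ F₂, ∃ z ∈ F₂, p = x + (y - z) := by
    refine cover hF₂ne ?_
    calc ((F + F₂).card : ℝ) ≤ (F + F).card := by
          exact_mod_cast Finset.card_le_card (Finset.add_subset_add_left
            (Finset.filter_subset _ _))
      _ ≤ M ^ 4 * F.card := hFF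
      _ ≤ M ^ 4 * (M * F₂.card) := by gcongr
      _ = M ^ 5 * F₂.card := by ring
  -- the number of the pairs
  have : Fintype H := Fintype.ofFinite H
  have hHcard : (Finset.univ : Finset H).card = Nat.card H := by
    rw [Finset.card_univ, Nat.card_eq_fintype_card]
  set ρ : (Fin d → ℤ) × H →+ Γ ⧸ N := (π.comp ψ).coprod (π.comp H.subtype) with hρ
  have hρe : ∀ (w : Fin d → ℤ) (h : H), ρ (w, h) = π (ψ w + h) := by
    intro w h
    rw [hρ, AddMonoidHom.coprod_apply, map_add]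
    rfl
  have hfin : (lat B).Finite := lat_finite hB.2.1.isBounded
  set P₁ : Finset ((Fin d → ℤ) × H) := hfin.toFinset ×ˢ Finset.univ with hP₁
  set E : Finset ((Fin d → ℤ) × H) :=
    ((hsym.finite 2).toFinset ×ˢ Finset.univ).filter (fun p => ρ p = 0) with hE
  have hEmem : ∀ (w : Fin d → ℤ) (h : H), (w, h) ∈ E ↔ w ∈ lat ((2 : ℝ) • B) ∧ ψ w + h ∈ N := by
    intro w h
    rw [hE, Finset.mem_filter, Finset.mem_product, Set.Finite.mem_toFinset, hρe, hπker]
    simp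
  have hcount : (E.card : ℝ) ≤ M ^ 4 * F.card := by
    have h1 := fib ρ P₁ E 0 (fun p hp => (Finset.mem_filter.1 hp).2)
    have h2 : (P₁ + E).card ≤ num B 3 * Nat.card H := by
      have h3 : P₁ + E ⊆ (hsym.finite 3).toFinset ×ˢ (Finset.univ : Finset H) := by
        intro p hp
        obtain ⟨⟨w, h⟩, hw, ⟨w', h'⟩, hw', rfl⟩ := Finset.mem_add.1 hp
        have h4 := (Set.Finite.mem_toFinset _).1 (Finset.mem_product.1 hw).1
        have h5 := ((hEmem w' h').1 hw').1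
        have h6 := hsym.add (by norm_num) (by norm_num) (one_lat h4) h5
        refine Finset.mem_product.2 ⟨(Set.Finite.mem_toFinset _).2 ?_, Finset.mem_univ _⟩
        have h7 : (1 : ℝ) + 2 = 3 := by norm_num
        rwa [h7] at h6
      have h4 := Finset.card_le_card h3
      rwa [Finset.card_product, hHcard, ← Set.ncard_eq_toFinset_card _ (hsym.finite 3)] at h4
    have h3 := num_le hsym hd4 (t := 3) (by norm_num) 2 (by norm_num)
    have h4 : (((P₁.image ρ).card * E.card : ℕ) : ℝ) ≤ M ^ 2 * A.card := by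
      calc (((P₁.image ρ).card * E.card : ℕ) : ℝ) ≤ ((num B 3 * Nat.card H : ℕ) : ℝ) := by
            exact_mod_cast h1.trans h2
        _ = num B 3 * Nat.card H := by push_cast; ring
        _ ≤ (M ^ 2 * (lat B).ncard) * Nat.card H :=
          mul_le_mul_of_nonneg_right h3 (Nat.cast_nonneg _)
        _ = M ^ 2 * (((lat B).ncard * Nat.card H : ℕ) : ℝ) := by push_cast; ring
        _ ≤ M ^ 2 * A.card := by
          have : (((lat B).ncard * Nat.card H : ℕ) : ℝ) ≤ A.card := by exact_mod_cast hvol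
          gcongr
    have h5 : ((A.image π).card : ℝ) ≤ M * (P₁.image ρ).card := by
      have h6 : A.image π ⊆ T.image π + P₁.image ρ := by
        intro z hz
        obtain ⟨x, hx, rfl⟩ := Finset.mem_image.1 hz
        obtain ⟨t, ht, v, hv, h, hh, e⟩ := hcov x hx
        refine Finset.mem_add.2 ⟨π t, Finset.mem_image_of_mem _ ht, ρ (v, ⟨h, hh⟩),
          Finset.mem_image_of_mem _ (Finset.mem_product.2
            ⟨(Set.Finite.mem_toFinset _).2 hv, Finset.mem_univ _⟩), ?_⟩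
        rw [hρe, ← map_add, e, add_assoc]
      calc ((A.image π).card : ℝ) ≤ ((T.card * (P₁.image ρ).card : ℕ) : ℝ) := by
            exact_mod_cast (Finset.card_le_card h6).trans (Finset.card_add_le.trans
              (Nat.mul_le_mul_right _ Finset.card_image_le))
        _ = T.card * (P₁.image ρ).card := by push_cast; ring
        _ ≤ M * (P₁.image ρ).card :=
          mul_le_mul_of_nonneg_right (hT.trans hCM) (Nat.cast_nonneg _)
    have h6 : ((A.image π).card : ℝ) * E.card ≤ (A.image π).card * (M ^ 4 * F.card) := by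
      calc ((A.image π).card : ℝ) * E.card ≤ (M * (P₁.image ρ).card) * E.card :=
            mul_le_mul_of_nonneg_right h5 (Nat.cast_nonneg _)
        _ = M * (((P₁.image ρ).card * E.card : ℕ) : ℝ) := by push_cast; ring
        _ ≤ M * (M ^ 2 * A.card) := mul_le_mul_of_nonneg_left h4 hMpos
        _ ≤ M * (M ^ 2 * (M * (F.card * (A.image π).card))) := by gcongr
        _ = (A.image π).card * (M ^ 4 * F.card) := by ring
    exact le_of_mul_le_mul_left h6 hπpos
  -- the parameters of the subgroup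
  obtain ⟨r, θ, -, hθ, hΛ⟩ := exists_param ((N ⊔ H).comap ψ)
  have hΛ' : ∀ w, (∃ v, θ v = w) ↔ ∃ y ∈ N, ∃ z ∈ H, y + z = ψ w := by
    intro w
    rw [← hΛ, AddSubgroup.mem_comap, AddSubgroup.mem_sup]
  set g : N →+ Γ ⧸ H := q.comp N.subtype with hg
  have hge : ∀ y : N, g y = q (y : Γ) := fun _ => rfl
  have hgR : ∀ v, (q.comp (ψ.comp θ)) v ∈ g.range := by
    intro v
    obtain ⟨y, hy, z, hz, e⟩ := (hΛ' (θ v)).1 ⟨v, rfl⟩
    refine ⟨⟨y, hy⟩, ?_⟩
    show q y = q (ψ (θ v))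
    rw [← e, map_add, (hqker z).2 hz, add_zero]
  obtain ⟨φ, hφ⟩ := lift g.rangeRestrict (AddMonoidHom.rangeRestrict_surjective _)
    ((q.comp (ψ.comp θ)).codRestrict g.range hgR)
  have hφH : ∀ v, ((φ v : N) : Γ) - ψ (θ v) ∈ H := by
    intro v
    have h1 := congrArg (fun y : g.range => (y : Γ ⧸ H)) (hφ v)
    have h2 : q ((φ v : N) : Γ) = q (ψ (θ v)) := h1
    rw [← hqker, map_sub, h2, sub_self]
  set X : Finset (Fin r → ℤ) := (hsym.finite 2).toFinset.preimage θ hθ.injOn with hX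
  have hXmem : ∀ v, v ∈ X ↔ θ v ∈ lat ((2 : ℝ) • B) := by
    intro v
    rw [hX, Finset.mem_preimage, Set.Finite.mem_toFinset]
  set H₀ : AddSubgroup N := H.comap N.subtype with hH₀
  have hH₀e : ∀ y : N, y ∈ H₀ ↔ (y : Γ) ∈ H := fun _ => Iff.rfl
  have hH₀fin : Finite H₀ := by
    refine Finite.of_injective (fun y : H₀ => (⟨((y : N) : Γ), y.2⟩ : H)) ?_
    intro y y' h
    have h1 := congrArg (fun z : H => (z : Γ)) h
    exact Subtype.val_injective (Subtype.val_injective h1)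
  have hsz : X.card * Nat.card H₀ ≤ E.card := by
    rw [← card_fs, ← Finset.card_product]
    refine Finset.card_le_card_of_injOn (fun p => (θ p.1,
      (if hp : p.2 ∈ H₀ then ⟨((φ p.1 : N) : Γ) - ψ (θ p.1) + (p.2 : Γ),
        H.add_mem (hφH p.1) ((hH₀e _).1 hp)⟩ else 0 : H))) ?_ ?_
    · rintro ⟨v, y⟩ hp
      have hp' := Finset.mem_product.1 (Finset.mem_coe.1 hp)
      have hv : v ∈ X := hp'.1
      have hy : y ∈ H₀ := (mem_fs H₀ y).1 hp'.2
      simp only [hy, dite_true]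
      rw [Finset.mem_coe, hEmem]
      refine ⟨(hXmem v).1 hv, ?_⟩
      have e : ψ (θ v) + (((φ v : N) : Γ) - ψ (θ v) + (y : Γ)) = ((φ v + y : N) : Γ) := by
        rw [AddSubgroup.coe_add]
        abel
      show ψ (θ v) + (((φ v : N) : Γ) - ψ (θ v) + (y : Γ)) ∈ N
      rw [e]
      exact (φ v + y : N).2
    · rintro ⟨v, y⟩ hp ⟨v', y'⟩ hp' h
      have h1 := Finset.mem_product.1 (Finset.mem_coe.1 hp)
      have h1' := Finset.mem_product.1 (Finset.mem_coe.1 hp')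
      have hy : y ∈ H₀ := (mem_fs H₀ y).1 h1.2
      have hy' : y' ∈ H₀ := (mem_fs H₀ y').1 h1'.2
      simp only [hy, hy', dite_true, Prod.mk.injEq] at h
      obtain ⟨h2, h3⟩ := h
      have h4 : v = v' := hθ h2
      subst h4
      have h5 := congrArg (fun z : H => (z : Γ)) h3
      simp only [add_right_inj] at h5
      have h6 : y = y' := Subtype.val_injective h5
      rw [h6]
  -- conclusion
  refine hC₃ N K' F hFne (hFF.trans (mul_le_mul_of_nonneg_right hM4 (Nat.cast_nonneg _))) ?_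
  refine ⟨r, X, φ, H₀, T₁, ?_, ?_, ?_, hH₀fin, ?_, ?_, ?_⟩
  · refine ⟨0, (hXmem 0).2 ?_⟩
    rw [map_zero]
    show re 0 ∈ (2 : ℝ) • B
    have : re (0 : Fin d → ℤ) = 0 := by funext i; simp [re]
    rw [this]
    exact ⟨0, hsym.zero, smul_zero _⟩
  · have h1 := ker_double hsym ((N ⊔ H).comap ψ) (t := 1 / 2) (by norm_num)
      ((X + X).image θ) (X.image θ) (by
        intro w hw
        obtain ⟨v, hv, rfl⟩ := Finset.mem_image.1 hw
        refine ⟨(hΛ _).2 ⟨v, rfl⟩, ?_⟩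
        obtain ⟨v₁, hv₁, v₂, hv₂, rfl⟩ := Finset.mem_add.1 hv
        rw [map_add]
        have h2 := hsym.add (by norm_num) (by norm_num) ((hXmem _).1 hv₁) ((hXmem _).1 hv₂)
        have h3 : (8 : ℝ) * (1 / 2) = 2 + 2 := by norm_num
        rwa [h3]) (by
        intro w hw hw2
        obtain ⟨v, rfl⟩ := (hΛ w).1 hw
        refine Finset.mem_image_of_mem _ ((hXmem v).2 ?_)
        exact lat_mono (hsym.mono (by norm_num) (by norm_num)) hw2) hd4
    rw [Finset.card_image_of_injective _ hθ, Finset.card_image_of_injective _ hθ] at h1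
    exact h1.trans (mul_le_mul_of_nonneg_right (hbd 5 le_rfl) (Nat.cast_nonneg _))
  · have h1 : (hull X).ncard ≤ X.card := by
      rw [← Set.ncard_coe_finset X]
      exact Set.ncard_le_ncard (hull_pre hsym 2 θ X hXmem) (Finset.finite_toSet _)
    calc ((hull X).ncard : ℝ) ≤ 1 * X.card := by rw [one_mul]; exact_mod_cast h1
      _ ≤ _ := by
        have h2 := hbd 0 (by norm_num)
        rw [pow_zero] at h2
        exact mul_le_mul_of_nonneg_right h2 (Nat.cast_nonneg _)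
  · have h1 := ncard_cpr_le (V := (X : Set (Fin r → ℤ))) (Finset.finite_toSet _) φ H₀
    rw [Set.ncard_coe_finset] at h1
    calc ((cpr (X : Set (Fin r → ℤ)) φ H₀).ncard : ℝ) ≤ E.card := by exact_mod_cast h1.trans hsz
      _ ≤ M ^ 4 * F.card := hcount
      _ ≤ _ := mul_le_mul_of_nonneg_right (hbd 4 (by norm_num)) (Nat.cast_nonneg _)
  · exact hT₁.trans (hbd 5 le_rfl)
  · intro y hy
    obtain ⟨x, hx, y₁, hy₁, y₂, hy₂, e⟩ := hcov₁ y hy
    obtain ⟨v₁, hv₁, h₁, hh₁, e₁⟩ := (Finset.mem_filter.1 hy₁).2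
    obtain ⟨v₂, hv₂, h₂, hh₂, e₂⟩ := (Finset.mem_filter.1 hy₂).2
    have e3 : ((y₁ - y₂ : N) : Γ) = ψ (v₁ - v₂) + (h₁ - h₂) := by
      rw [AddSubgroup.coe_sub, map_sub]
      have e4 : (y₁ : Γ) - y₂ = (x₀ + y₁) - (x₀ + y₂) := by abel
      rw [e4, e₁, e₂]
      abel
    obtain ⟨u, hu⟩ := (hΛ' (v₁ - v₂)).2 ⟨((y₁ - y₂ : N) : Γ), (y₁ - y₂ : N).2, -(h₁ - h₂),
      H.neg_mem (H.sub_mem hh₁ hh₂), by rw [e3]; abel⟩
    refine ⟨x, hx, φ u + (y₁ - y₂ - φ u), ⟨u, ?_, y₁ - y₂ - φ u, ?_, rfl⟩, ?_⟩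
    · rw [Finset.mem_coe, hXmem, hu]
      have h2 := hsym.sub (by norm_num) (by norm_num) (one_lat hv₁) (one_lat hv₂)
      have h3 : (1 : ℝ) + 1 = 2 := by norm_num
      rwa [h3] at h2
    · rw [hH₀e, AddSubgroup.coe_sub, e3, ← hu]
      have e5 : ψ (θ u) + (h₁ - h₂) - (φ u : Γ) = (h₁ - h₂) - ((φ u : Γ) - ψ (θ u)) := by abel
      rw [e5]
      exact H.sub_mem (H.sub_mem hh₁ hh₂) (hφH u)
    · rw [e]
      abel

end Pool.Agent.H28.FB
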