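import Pool.Agent.H28.FB.D

/-!
Sets which are commensurable up to an isogeny of bounded exponent; fibres
(helper file for `MP_dd2a7c_co.IsogenyInvariance`).
-/

set_option autoImplicit false

namespace Pool.Agent.H28.FB

open Finset
open Pool.Agent.Y806.DF Pool.Agent.R92.Star Pool.Agent.R424.EX Pool.Agent.H608VF
open scoped Pointwise

universe u v

theorem concl_mono {Γ : Type*} [AddCommGroup Γ] {C : ℝ} {c : ℕ} (hC : C ≤ c) {K K' : ℝ}
    (hK1 : 1 ≤ K) (hKK : K ≤ K') {B : Finset Γ} (h : Concl C K B) : Concl (c : ℝ) K' B := by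
  obtain ⟨d, Q, ψ, H, T, hd, hQ, hH, hvol, hT, hcov⟩ := h
  have hl0 : 0 ≤ Real.log (2 * K) := Real.log_nonneg (by linarith)
  refine ⟨d, Q, ψ, H, T, ?_, hQ, hH, hvol, ?_, hcov⟩
  · calc (d : ℝ) ≤ C * Real.log (2 * K) := hd
      _ ≤ c * Real.log (2 * K) := mul_le_mul_of_nonneg_right hC hl0
      _ ≤ c * Real.log (2 * K') := mul_le_mul_of_nonneg_left
        (Real.log_le_log (by linarith) (by linarith)) (Nat.cast_nonneg _)
  · rw [Real.rpow_natCast]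
    calc (T.card : ℝ) ≤ C * K ^ C := hT
      _ ≤ c * K ^ c := cpow_mono hC hK1
      _ ≤ c * K' ^ c := mul_le_mul_of_nonneg_left (pow_le_pow_left₀ (by linarith) hKK c)
        (Nat.cast_nonneg _)

theorem weak_mono {Γ : Type*} [AddCommGroup Γ] {C : ℝ} {c : ℕ} (hC : C ≤ c) {K K' : ℝ}
    (hK1 : 1 ≤ K) (hKK : K ≤ K') {B : Finset Γ} (h : Weak C K B) : Weak (c : ℝ) K' B := by
  have hle : C * K ^ C ≤ (c : ℝ) * K' ^ (c : ℝ) := by
    rw [Real.rpow_natCast]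
    calc C * K ^ C ≤ c * K ^ c := cpow_mono hC hK1
      _ ≤ c * K' ^ c := mul_le_mul_of_nonneg_left (pow_le_pow_left₀ (by linarith) hKK c)
        (Nat.cast_nonneg _)
  obtain ⟨d, X, ψ, H, T, h1, h2, h3, h4, h5, h6, h7⟩ := h
  exact ⟨d, X, ψ, H, T, h1, h2.trans (mul_le_mul_of_nonneg_right hle (Nat.cast_nonneg _)),
    h3.trans (mul_le_mul_of_nonneg_right hle (Nat.cast_nonneg _)), h4,
    h5.trans (mul_le_mul_of_nonneg_right hle (Nat.cast_nonneg _)), h6.trans hle, h7⟩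

theorem concl_translate {Γ : Type*} [AddCommGroup Γ] [DecidableEq Γ] {C K : ℝ} {B : Finset Γ}
    (x : Γ) (h : Concl C K B) : Concl C K (B.image fun y => x + y) := by
  obtain ⟨d, Q, ψ, H, T, hd, hQ, hH, hvol, hT, hcov⟩ := h
  refine ⟨d, Q, ψ, H, T.image (fun y => x + y), hd, hQ, hH, ?_, ?_, ?_⟩
  · rw [Finset.card_image_of_injective _ (add_right_injective x)]
    exact hvol
  · rw [Finset.card_image_of_injective _ (add_right_injective x)]
    exact hT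
  · intro a ha
    obtain ⟨b, hb, rfl⟩ := Finset.mem_image.1 ha
    obtain ⟨t, ht, v, hv, h, hh, e⟩ := hcov b hb
    exact ⟨x + t, Finset.mem_image_of_mem _ ht, v, hv, h, hh, by rw [e]; abel⟩

/-- the doubling of a dense subset of few translates of a coset progression -/
theorem doubling_cov {Γ : Type*} [AddCommGroup Γ] [DecidableEq Γ] {d : ℕ}
    {B : Set (Fin d → ℝ)} (hB : Sym B) {M : ℝ} (hM1 : 1 ≤ M) (hd : (4 : ℝ) ^ d ≤ M)
    (ψ : (Fin d → ℤ) →+ Γ) (H : AddSubgroup Γ) [Finite H] {F T : Finset Γ}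
    (hvol : (lat B).ncard * Nat.card H ≤ F.card) (hT : (T.card : ℝ) ≤ M)
    (hcov : Cov B ψ H T F) : ((F + F).card : ℝ) ≤ M ^ 3 * F.card := by
  have hM0 : 0 ≤ M := by linarith
  have h1 : F + F ⊆ (T + T) + ((hB.finite 2).toFinset.image ψ + fs H) := by
    intro x hx
    obtain ⟨y, hy, z, hz, rfl⟩ := Finset.mem_add.1 hx
    obtain ⟨t, ht, v, hv, h, hh, rfl⟩ := hcov y hy
    obtain ⟨t', ht', v', hv', h', hh', rfl⟩ := hcov z hz
    refine Finset.mem_add.2 ⟨t + t', Finset.add_mem_add ht ht', ψ (v + v') + (h + h'),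
      Finset.add_mem_add (Finset.mem_image_of_mem _ ((Set.Finite.mem_toFinset _).2 ?_))
        ((mem_fs H _).2 (H.add_mem hh hh')), ?_⟩
    · have h2 := hB.add (by norm_num) (by norm_num) (one_lat hv) (one_lat hv')
      have h3 : (1 : ℝ) + 1 = 2 := by norm_num
      rwa [h3] at h2
    · rw [map_add]
      abel
  have h2 : (F + F).card ≤ (T.card * T.card) * (num B 2 * Nat.card H) := by
    refine (Finset.card_le_card h1).trans (Finset.card_add_le.trans (Nat.mul_le_mul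
      Finset.card_add_le (Finset.card_add_le.trans (Nat.mul_le_mul ?_ (card_fs H).le))))
    rw [num, Set.ncard_eq_toFinset_card _ (hB.finite 2)]
    exact Finset.card_image_le
  have h3 := num_le hB hd (t := 2) (by norm_num) 1 (by norm_num)
  rw [pow_one] at h3
  calc ((F + F).card : ℝ) ≤ (((T.card * T.card) * (num B 2 * Nat.card H) : ℕ) : ℝ) := by
        exact_mod_cast h2
    _ = (T.card * T.card) * (num B 2 * Nat.card H) := by push_cast; ring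
    _ ≤ (M * M) * ((M * (lat B).ncard) * Nat.card H) := by gcongr
    _ = M ^ 3 * (((lat B).ncard * Nat.card H : ℕ) : ℝ) := by push_cast; ring
    _ ≤ M ^ 3 * F.card := by
      have : (((lat B).ncard * Nat.card H : ℕ) : ℝ) ≤ F.card := by exact_mod_cast hvol
      gcongr

/-- **Isogenies of bounded exponent.** -/
theorem isogeny (C : ℝ) (m : ℕ) (hm : 0 < m) : ∃ C' : ℝ, ∀ (Γ : Type u) (Γ' : Type v)
    [AddCommGroup Γ] [DecidableEq Γ] [AddCommGroup Γ'] [DecidableEq Γ'] (f : Γ →+ Γ')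
    (g : Γ' →+ Γ), (∀ x, g (f x) = m • x) → ∀ (K : ℝ) (A A' T₂ : Finset Γ) (B T₁ : Finset Γ'),
    A.Nonempty → ((A + A).card : ℝ) ≤ K * A.card → A' ⊆ A →
    (A.card : ℝ) ≤ C * K ^ C * A'.card → (T₁.card : ℝ) ≤ C * K ^ C →
    (∀ a ∈ A', ∃ x ∈ T₁, ∃ y ∈ B, ∃ z ∈ B, f a = x + (y - z)) →
    (T₂.card : ℝ) ≤ C * K ^ C → (∀ b ∈ B, ∃ x ∈ T₂, ∃ y ∈ A, ∃ z ∈ A, g b = x + (y - z)) →
    Concl C K B → Concl C' K A := by
  classical
  obtain ⟨n, hn1, hn, hCK⟩ := nat_const C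
  obtain ⟨a, ha⟩ : ∃ a : ℕ, a = 4 ^ n := ⟨_, rfl⟩
  obtain ⟨n', hn'⟩ : ∃ n' : ℕ, n' = a ^ 9 + a * 9 := ⟨_, rfl⟩
  have ha1 : 1 ≤ a := by rw [ha]; exact Nat.one_le_pow _ _ (by norm_num)
  have hn'1 : 1 ≤ n' := by
    have h1 : 1 ≤ a ^ 9 := Nat.one_le_pow _ _ ha1
    omega
  obtain ⟨c, hc⟩ : ∃ c : ℕ, c = n + 1 := ⟨_, rfl⟩
  obtain ⟨C₅, hC₅⟩ := images.{v, u} (c : ℝ)
  obtain ⟨c₆, hc₆⟩ := concl_poly.{u} C₅ n' hn'1
  obtain ⟨C', hC'⟩ := one_group.{u} ((c₆ + n : ℕ) : ℝ) m hm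
  refine ⟨C', ?_⟩
  intro Γ Γ' _ _ _ _ f g hgf K A A' T₂ B T₁ hA hK hA'A hA'le hT₁ hcov₁ hT₂ hcov₂ hcon
  have hK1 := one_le hA hK
  have hK0 : 0 < K := by linarith
  have hA0 : (0 : ℝ) < A.card := by exact_mod_cast hA.card_pos
  obtain ⟨hM1, hM2, hM3⟩ := big_const hn1 hK1
  rw [← ha] at hM1 hM2 hM3
  obtain ⟨M, hM⟩ : ∃ M : ℝ, M = (a : ℝ) * K ^ a := ⟨_, rfl⟩
  rw [← hM] at hM1 hM2 hM3
  have hCM : C * K ^ C ≤ M := (hCK K hK1).trans hM2
  have hM0 : 1 ≤ M := hK1.trans hM1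
  obtain ⟨K₃, hK₃⟩ : ∃ K₃ : ℝ, K₃ = (n' : ℝ) * K ^ n' := ⟨_, rfl⟩
  have hM9 : M ^ 9 ≤ K₃ := by
    have h1 := pow_const a 9 n' hK1 (le_refl K) hn'.ge
    rwa [← hM, Real.rpow_natCast, ← hK₃] at h1
  have hKK₃ : K ≤ K₃ := by
    calc K ≤ M := hM1
      _ ≤ M ^ 9 := le_self_pow₀ hM0 (by norm_num)
      _ ≤ K₃ := hM9
  have hK₃1 : 1 ≤ K₃ := hK1.trans hKK₃
  have hcK : K₃ ≤ (c : ℝ) * K₃ ^ (c : ℝ) := by
    rw [Real.rpow_natCast]
    have e1 : (1 : ℝ) ≤ c := by exact_mod_cast (by omega : 1 ≤ c)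
    have e2 : K₃ ≤ K₃ ^ c := le_self_pow₀ hK₃1 (by omega)
    calc K₃ = 1 * K₃ := (one_mul _).symm
      _ ≤ _ := mul_le_mul e1 e2 (by linarith) (Nat.cast_nonneg _)
  have hBne : B.Nonempty := by
    have hA'ne : A'.Nonempty := by
      rw [← Finset.card_pos]
      by_contra hcon
      have h0 : A'.card = 0 := by omega
      rw [h0, Nat.cast_zero, mul_zero] at hA'le
      linarith
    obtain ⟨x, hx⟩ := hA'ne
    obtain ⟨-, -, y, hy, -⟩ := hcov₁ x hx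
    exact ⟨y, hy⟩
  -- the doubling of `B`
  have hBB : ((B + B).card : ℝ) ≤ M ^ 3 * B.card := by
    obtain ⟨d, Q, ψ, H, T, hd, hQ, hH, hvol, hT, hcov⟩ := hcon
    exact doubling_cov (sym_of_body hQ) hM0 (hM3 d (hd.trans
      (mul_le_mul_of_nonneg_right hn (Real.log_nonneg (by linarith))))) ψ H hvol
      (hT.trans hCM) hcov
  -- the image of `B`
  have hcon2 : Concl C₅ K₃ (B.image g) := by
    refine hC₅ Γ' Γ g ⊥ K₃ B (B.image g) {0} inferInstance hBne ?_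
      (concl_mono (hn.trans (by exact_mod_cast (by omega : n ≤ c))) hK1 hKK₃ hcon)
      (hBne.image g) ?_ ?_ ?_ ?_
    · refine hBB.trans (mul_le_mul_of_nonneg_right ?_ (Nat.cast_nonneg _))
      calc M ^ 3 ≤ M ^ 9 := pow_le_pow_right₀ hM0 (by norm_num)
        _ ≤ K₃ := hM9
        _ ≤ _ := hcK
    · have h1 := image_doubling g hBne hBB
      rw [← pow_mul] at h1
      exact h1.trans (mul_le_mul_of_nonneg_right hM9 (Nat.cast_nonneg _))
    · rw [Finset.card_singleton, Nat.cast_one]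
      exact hK₃1.trans hcK
    · intro y hy
      obtain ⟨b, hb, rfl⟩ := Finset.mem_image.1 hy
      exact ⟨0, Finset.mem_singleton_self _, b, hb, 0, AddSubgroup.zero_mem _, by abel⟩
    · have h1 : {y : Γ | ∃ b ∈ B, ∃ h ∈ (⊥ : AddSubgroup Γ), y = g b + h} =
          ((B.image g : Finset Γ) : Set Γ) := by
        ext y
        rw [Finset.mem_coe, Finset.mem_image]
        constructor
        · rintro ⟨b, hb, h, hh, rfl⟩
          rw [AddSubgroup.mem_bot] at hh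
          exact ⟨b, hb, by rw [hh, add_zero]⟩
        · rintro ⟨b, hb, rfl⟩
          exact ⟨b, hb, 0, AddSubgroup.zero_mem _, by rw [add_zero]⟩
      rw [h1, Set.ncard_coe_finset]
      exact le_mul_of_one_le_left (Nat.cast_nonneg _) (hK₃1.trans hcK)
  rw [hK₃] at hcon2
  have hcon3 : Concl ((c₆ + n : ℕ) : ℝ) K (B.image g) :=
    hc₆ _ (Nat.le_add_right _ _) Γ K (B.image g) hK1 hcon2
  have hbd : C * K ^ C ≤ ((c₆ + n : ℕ) : ℝ) * K ^ ((c₆ + n : ℕ) : ℝ) := by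
    rw [Real.rpow_natCast]
    exact cpow_mono (hn.trans (by exact_mod_cast Nat.le_add_left _ _)) hK1
  refine hC' Γ K A A' (B.image g) (T₁.image g) T₂ hA hK hA'A
    (hA'le.trans (mul_le_mul_of_nonneg_right hbd (Nat.cast_nonneg _)))
    ((by exact_mod_cast Finset.card_image_le : (((T₁.image g).card : ℕ) : ℝ) ≤ T₁.card).trans
      (hT₁.trans hbd)) ?_ (hT₂.trans hbd) ?_ hcon3
  · intro x hx
    obtain ⟨t, ht, y, hy, z, hz, e⟩ := hcov₁ x hx
    refine ⟨g t, Finset.mem_image_of_mem _ ht, g y, Finset.mem_image_of_mem _ hy, g z,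
      Finset.mem_image_of_mem _ hz, ?_⟩
    rw [← hgf, e, map_add, map_sub]
  · intro y hy
    obtain ⟨b, hb, rfl⟩ := Finset.mem_image.1 hy
    exact hcov₂ b hb

section fibres

variable {Γ : Type u} [AddCommGroup Γ] [DecidableEq Γ] {N : AddSubgroup Γ}

/-- The data of a large part `x₀ + F` of a fibre. -/
theorem fibre_doubling {A : Finset Γ} (hA : A.Nonempty) {M : ℝ}
    (hM : ((A + A).card : ℝ) ≤ M * A.card) {F : Finset N} {x₀ : Γ}
    (hFA : ∀ y ∈ F, x₀ + (y : Γ) ∈ A)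
    (hsize : (A.card : ℝ) ≤ M * (F.card * (QuotientAddGroup.mk' N '' (A : Set Γ)).ncard)) :
    ((F + F).card : ℝ) ≤ M ^ 4 * F.card := by
  classical
  set π : Γ →+ Γ ⧸ N := QuotientAddGroup.mk' N with hπ
  have hπker : ∀ x, π x = 0 ↔ x ∈ N := fun x => QuotientAddGroup.eq_zero_iff x
  have hcard : (π '' (A : Set Γ)).ncard = (A.image π).card := by
    rw [← Finset.coe_image, Set.ncard_coe_finset]
  rw [hcard] at hsize
  set F₁ : Finset Γ := F.image (fun y : N => x₀ + (y : Γ)) with hF₁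
  have hinj : Function.Injective (fun y : N => x₀ + (y : Γ)) := fun x y h =>
    Subtype.val_injective (add_left_cancel h)
  have hF₁card : F₁.card = F.card := Finset.card_image_of_injective _ hinj
  have hF₁A : F₁ ⊆ A := by
    intro x hx
    obtain ⟨y, hy, rfl⟩ := Finset.mem_image.1 hx
    exact hFA y hy
  have hF₁π : ∀ f ∈ F₁, π f = π x₀ := by
    intro f hf
    obtain ⟨y, hy, rfl⟩ := Finset.mem_image.1 hf
    rw [map_add, (hπker _).2 y.2, add_zero]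
  have h1 : (F + F).card ≤ (F₁ + F₁).card := by
    refine Finset.card_le_card_of_injOn (fun y : N => x₀ + x₀ + (y : Γ)) ?_ ?_
    · intro y hy
      obtain ⟨u, hu, w, hw, rfl⟩ := Finset.mem_add.1 (Finset.mem_coe.1 hy)
      refine Finset.mem_coe.2 (Finset.mem_add.2 ⟨x₀ + u, Finset.mem_image_of_mem _ hu, x₀ + w,
        Finset.mem_image_of_mem _ hw, ?_⟩)
      show x₀ + (u : Γ) + (x₀ + (w : Γ)) = x₀ + x₀ + ((u + w : N) : Γ)
      rw [AddSubgroup.coe_add]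
      abel
    · exact fun x _ y _ h => Subtype.val_injective (add_left_cancel h)
  have h2 := fibU π hA hM (F := F₁) (U := F₁) (Y := {0}) (i := 1) (j := 0) hF₁A hF₁π
    (by rw [hF₁card]; exact hsize) hF₁π (by
      intro x hx
      refine Finset.mem_add.2 ⟨0, Finset.mem_singleton_self _, x - 0, mem_pr
        (mem_one (hF₁A hx)) ?_, by abel⟩
      rw [zero_nsmul]
      exact Finset.mem_zero.2 rfl)
  rw [Finset.card_singleton, Nat.cast_one, one_mul, hF₁card] at h2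
  exact (by exact_mod_cast h1 : ((F + F).card : ℝ) ≤ (F₁ + F₁).card).trans h2

end fibres

/-- **From a large part of a fibre to the whole set.** -/
theorem set_of_fibre (C : ℝ) (m : ℕ) (hm : 0 < m) : ∃ C' : ℝ, ∀ (Γ : Type u) [AddCommGroup Γ]
    [DecidableEq Γ] (N : AddSubgroup Γ) (K : ℝ) (A : Finset Γ) (F : Finset N) (x₀ t : Γ),
    A.Nonempty → ((A + A).card : ℝ) ≤ K * A.card → (∀ y ∈ F, x₀ + (y : Γ) ∈ A) →
    (A.card : ℝ) ≤ C * K ^ C * (F.card * (QuotientAddGroup.mk' N '' (A : Set Γ)).ncard) →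
    (A.card : ℝ) ≤ C * K ^ C * ({a : Γ | a ∈ A ∧ m • a - t ∈ N}.ncard : ℝ) →
    Concl C K F → Concl C' K A := by
  classical
  obtain ⟨n, hn1, hn, hCK⟩ := nat_const C
  obtain ⟨a, ha⟩ : ∃ a : ℕ, a = 4 ^ n := ⟨_, rfl⟩
  obtain ⟨E, hE⟩ : ∃ E : ℕ, E = 6 * (Nat.log 2 m + 1) + 5 := ⟨_, rfl⟩
  obtain ⟨c, hc⟩ : ∃ c : ℕ, c = a ^ E + a * E + n := ⟨_, rfl⟩
  obtain ⟨C', hC'⟩ := one_group.{u} (c : ℝ) m hm
  refine ⟨C', ?_⟩
  intro Γ _ _ N K A F x₀ t hA hK hFA hsize hmA hcon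
  have hK1 := one_le hA hK
  have hK0 : 0 < K := by linarith
  have hA0 : (0 : ℝ) < A.card := by exact_mod_cast hA.card_pos
  obtain ⟨hM1, hM2, hM3⟩ := big_const hn1 hK1
  rw [← ha] at hM1 hM2 hM3
  obtain ⟨M, hM⟩ : ∃ M : ℝ, M = (a : ℝ) * K ^ a := ⟨_, rfl⟩
  rw [← hM] at hM1 hM2 hM3
  have hCM : C * K ^ C ≤ M := (hCK K hK1).trans hM2
  have hM0 : 1 ≤ M := hK1.trans hM1
  have hMpos : 0 ≤ M := by linarith
  have hMc : M ^ E ≤ (c : ℝ) * K ^ (c : ℝ) := by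
    rw [hM]
    exact pow_const a E c hK1 (le_refl K) (by omega)
  have hCc : C * K ^ C ≤ (c : ℝ) * K ^ (c : ℝ) := by
    rw [Real.rpow_natCast]
    exact cpow_mono (hn.trans (by exact_mod_cast (by omega : n ≤ c))) hK1
  set π : Γ →+ Γ ⧸ N := QuotientAddGroup.mk' N with hπ
  have hπker : ∀ x, π x = 0 ↔ x ∈ N := fun x => QuotientAddGroup.eq_zero_iff x
  have hcard : (π '' (A : Set Γ)).ncard = (A.image π).card := by
    rw [← Finset.coe_image, Set.ncard_coe_finset]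
  rw [hcard] at hsize
  have hsize' : (A.card : ℝ) ≤ M * (F.card * (A.image π).card) :=
    hsize.trans (mul_le_mul_of_nonneg_right hCM (by positivity))
  have hAM : ((A + A).card : ℝ) ≤ M * A.card :=
    hK.trans (mul_le_mul_of_nonneg_right hM1 (Nat.cast_nonneg _))
  set F₁ : Finset Γ := (F.image N.subtype).image (fun y : Γ => x₀ + y) with hF₁
  have hF₁card : F₁.card = F.card := by
    rw [hF₁, Finset.card_image_of_injective _ (add_right_injective x₀),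
      Finset.card_image_of_injective _ N.subtype_injective]
  have hF₁mem : ∀ x ∈ F₁, ∃ y ∈ F, x = x₀ + (y : Γ) := by
    intro x hx
    obtain ⟨z, hz, rfl⟩ := Finset.mem_image.1 hx
    obtain ⟨y, hy, rfl⟩ := Finset.mem_image.1 hz
    exact ⟨y, hy, rfl⟩
  have hF₁A : F₁ ⊆ A := by
    intro x hx
    obtain ⟨y, hy, rfl⟩ := hF₁mem x hx
    exact hFA y hy
  have hF₁π : ∀ f ∈ F₁, π f = π x₀ := by
    intro f hf
    obtain ⟨y, hy, rfl⟩ := hF₁mem f hf
    rw [map_add, (hπker _).2 y.2, add_zero]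
  have hF₁ne : F₁.Nonempty := by
    rw [← Finset.card_pos, hF₁card]
    by_contra hcon
    have h0 : F.card = 0 := by omega
    rw [h0, Nat.cast_zero, zero_mul, mul_zero] at hsize
    linarith
  set A' := A.filter (fun a => m • a - t ∈ N) with hA'
  have hA'card : {a : Γ | a ∈ A ∧ m • a - t ∈ N}.ncard = A'.card := by
    rw [← Set.ncard_coe_finset, hA', Finset.coe_filter]
  rw [hA'card] at hmA
  set U := A'.image (fun a : Γ => m • a) with hU
  obtain ⟨Y, hY, hcovY⟩ := horner hA hAM m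
  obtain ⟨ℓ, hℓ⟩ : ∃ ℓ : ℕ, ℓ = Nat.log 2 m + 1 := ⟨_, rfl⟩
  rw [← hℓ] at hY hE
  have hU1 : ∀ u ∈ U, π u = π t := by
    intro u hu
    obtain ⟨a, ha, rfl⟩ := Finset.mem_image.1 hu
    have h1 := (hπker _).2 (Finset.mem_filter.1 ha).2
    rw [map_sub, sub_eq_zero] at h1
    exact h1
  have hU2 : U ⊆ Y + (1 • A - 1 • A) := by
    intro u hu
    obtain ⟨a, ha, rfl⟩ := Finset.mem_image.1 hu
    obtain ⟨y, hy, b, hb, c, hc, e⟩ := hcovY a (Finset.mem_filter.1 ha).1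
    exact Finset.mem_add.2 ⟨y, hy, b - c, mem_pr (mem_one hb) (mem_one hc), e.symm⟩
  have hUF : ((U + F₁).card : ℝ) ≤ M ^ E * F₁.card := by
    refine (fibU π hA hAM hF₁A hF₁π (by rw [hF₁card]; exact hsize') hU1 hU2).trans ?_
    have e : M ^ E = M ^ (6 * ℓ) * M ^ (1 + 1 + 3) := by rw [hE, ← pow_add]
    rw [e]
    gcongr
  obtain ⟨T₁, -, hT₁, hcov₁⟩ := cover hF₁ne hUF
  obtain ⟨a₀, ha₀⟩ := id hA
  have hcon' : Concl (c : ℝ) K F₁ := by
    refine concl_mono (hn.trans (by exact_mod_cast (by omega : n ≤ c))) hK1 (le_refl K) ?_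
    exact concl_translate x₀ (concl_map N.subtype N.subtype_injective hcon)
  refine hC' Γ K A A' F₁ T₁ {a₀} hA hK (Finset.filter_subset _ _)
    (hmA.trans (mul_le_mul_of_nonneg_right hCc (Nat.cast_nonneg _))) (hT₁.trans hMc) ?_ ?_ ?_ hcon'
  · intro x hx
    exact hcov₁ _ (Finset.mem_image_of_mem _ hx)
  · rw [Finset.card_singleton, Nat.cast_one]
    calc (1 : ℝ) ≤ M ^ E := one_le_pow₀ hM0
      _ ≤ _ := hMc
  · intro f hf
    exact ⟨a₀, Finset.mem_singleton_self _, f, hF₁A hf, a₀, ha₀, by abel⟩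

/-- **Fibres with a dense structure.** -/
theorem set_of_weak_fibre (C : ℝ) (m : ℕ) (hm : 0 < m) : ∃ C' : ℝ, ∀ (Γ : Type u)
    [AddCommGroup Γ] [DecidableEq Γ] (N : AddSubgroup Γ) (K : ℝ) (A : Finset Γ) (F : Finset N)
    (x₀ t : Γ), A.Nonempty → ((A + A).card : ℝ) ≤ K * A.card → (∀ y ∈ F, x₀ + (y : Γ) ∈ A) →
    (A.card : ℝ) ≤ C * K ^ C * (F.card * (QuotientAddGroup.mk' N '' (A : Set Γ)).ncard) →
    (A.card : ℝ) ≤ C * K ^ C * ({a : Γ | a ∈ A ∧ m • a - t ∈ N}.ncard : ℝ) →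
    Weak C K F → Concl C' K A := by
  classical
  obtain ⟨n, hn1, hn, hCK⟩ := nat_const C
  obtain ⟨a, ha⟩ : ∃ a : ℕ, a = 4 ^ n := ⟨_, rfl⟩
  obtain ⟨n', hn'⟩ : ∃ n' : ℕ, n' = a ^ 4 + a * 4 := ⟨_, rfl⟩
  have ha1 : 1 ≤ a := by rw [ha]; exact Nat.one_le_pow _ _ (by norm_num)
  have hn'1 : 1 ≤ n' := by
    have h1 : 1 ≤ a ^ 4 := Nat.one_le_pow _ _ ha1
    omega
  obtain ⟨C₃, hC₃⟩ := concl_of_weak.{u} (n : ℝ)
  obtain ⟨c₄, hc₄⟩ := concl_poly.{u} C₃ n' hn'1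
  obtain ⟨C', hC'⟩ := set_of_fibre.{u} ((c₄ + n : ℕ) : ℝ) m hm
  refine ⟨C', ?_⟩
  intro Γ _ _ N K A F x₀ t hA hK hFA hsize hmA hcon
  have hK1 := one_le hA hK
  have hA0 : (0 : ℝ) < A.card := by exact_mod_cast hA.card_pos
  obtain ⟨hM1, hM2, hM3⟩ := big_const hn1 hK1
  rw [← ha] at hM1 hM2 hM3
  obtain ⟨M, hM⟩ : ∃ M : ℝ, M = (a : ℝ) * K ^ a := ⟨_, rfl⟩
  rw [← hM] at hM1 hM2 hM3
  have hCM : C * K ^ C ≤ M := (hCK K hK1).trans hM2
  have hM0 : 1 ≤ M := hK1.trans hM1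
  obtain ⟨K', hK'⟩ : ∃ K' : ℝ, K' = (n' : ℝ) * K ^ n' := ⟨_, rfl⟩
  have hM4 : M ^ 4 ≤ K' := by
    have h1 := pow_const a 4 n' hK1 (le_refl K) hn'.ge
    rwa [← hM, Real.rpow_natCast, ← hK'] at h1
  have hKK' : K ≤ K' := by
    calc K ≤ M := hM1
      _ ≤ M ^ 4 := le_self_pow₀ hM0 (by norm_num)
      _ ≤ K' := hM4
  have hAM : ((A + A).card : ℝ) ≤ M * A.card :=
    hK.trans (mul_le_mul_of_nonneg_right hM1 (Nat.cast_nonneg _))
  have hFF := fibre_doubling hA hAM hFA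
    (hsize.trans (mul_le_mul_of_nonneg_right hCM (by positivity)))
  have hFne : F.Nonempty := by
    rw [← Finset.card_pos]
    by_contra hcon
    have h0 : F.card = 0 := by omega
    rw [h0, Nat.cast_zero, zero_mul, mul_zero] at hsize
    linarith
  have h1 : Concl C₃ K' F := hC₃ N K' F hFne
    (hFF.trans (mul_le_mul_of_nonneg_right hM4 (Nat.cast_nonneg _)))
    (weak_mono hn hK1 hKK' hcon)
  rw [hK'] at h1
  have h2 : Concl ((c₄ + n : ℕ) : ℝ) K F := hc₄ _ (Nat.le_add_right _ _) N K F hK1 h1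
  have hbd : C * K ^ C ≤ ((c₄ + n : ℕ) : ℝ) * K ^ ((c₄ + n : ℕ) : ℝ) := by
    rw [Real.rpow_natCast]
    exact cpow_mono (hn.trans (by exact_mod_cast Nat.le_add_left _ _)) hK1
  exact hC' Γ N K A F x₀ t hA hK hFA
    (hsize.trans (mul_le_mul_of_nonneg_right hbd (by positivity)))
    (hmA.trans (mul_le_mul_of_nonneg_right hbd (Nat.cast_nonneg _))) h2

end Pool.Agent.H28.FB
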